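import Mathlib
import Pool.Agent.TH891.SG.Gal2

set_option autoImplicit false

/-! The von Mangoldt function on the integers and the weight of a set. -/

namespace Pool.Agent.Y842.JC
open Finset
open Pool.Agent.TH891.SG (Gm one_le_Gm)

/-- the von Mangoldt function on the integers -/
noncomputable def Lz (m : ℤ) : ℝ := ArithmeticFunction.vonMangoldt m.toNat

lemma Lz_nonneg (m : ℤ) : 0 ≤ Lz m := ArithmeticFunction.vonMangoldt_nonneg

/-- the product over the pairs -/
noncomputable def PG (T : Finset ℤ) : ℝ := ∏ q ∈ T.offDiag, Gm 2 (q.1 - q.2).natAbs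

lemma one_le_PG (T : Finset ℤ) : 1 ≤ PG T := by
  unfold PG
  exact Pool.Agent.TH891.SG.one_le_prodR _ _ fun q _ => one_le_Gm (by norm_num) _

lemma prod_mono_one {τ : Type*} {s t : Finset τ} (h : s ⊆ t) {f : τ → ℝ} (hf : ∀ x, 1 ≤ f x) :
    ∏ x ∈ s, f x ≤ ∏ x ∈ t, f x := by
  classical
  rw [← prod_sdiff h]
  apply le_mul_of_one_le_left (prod_nonneg fun x _ => zero_le_one.trans (hf x))
  exact Pool.Agent.TH891.SG.one_le_prodR _ _ fun x _ => hf x

end Pool.Agent.Y842.JC
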