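import Pool.Agent.Y842.JC.Base

set_option autoImplicit false

/-! Averages over boxes of tuples. -/

namespace Pool.Agent.Y842.JC
open Finset
open Pool.Agent.TH891.SG (Gm one_le_Gm sum_Gm Gm_pow Zc Zc_nonneg prod_le_sum_pow)

/-- the multiplicative weight on the integers -/
noncomputable def gz (C : ℝ) (d : ℤ) : ℝ := Gm C d.natAbs

lemma one_le_gz {C : ℝ} (hC : 0 ≤ C) (d : ℤ) : 1 ≤ gz C d := one_le_Gm hC _

lemma gz_nonneg {C : ℝ} (hC : 0 ≤ C) (d : ℤ) : 0 ≤ gz C d := zero_le_one.trans (one_le_gz hC d)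

lemma gz_zero (C : ℝ) : gz C 0 = 1 := by
  unfold gz Gm
  simp

lemma gz_neg (C : ℝ) (d : ℤ) : gz C (-d) = gz C d := by
  unfold gz
  rw [Int.natAbs_neg]

/-- the constant for the means -/
noncomputable def mC (C : ℝ) : ℝ := 2 + 2 * Real.exp (C * Zc)

lemma mC_ge (C : ℝ) : 1 ≤ mC C := by
  unfold mC
  have := Real.exp_pos (C * Zc)
  linarith

lemma sum_gz {C : ℝ} (hC : 0 ≤ C) (M : ℕ) (hM : 1 ≤ M) (S : Finset ℤ) (hS : ∀ x ∈ S, |x| ≤ M) :
    ∑ x ∈ S, gz C x ≤ mC C * M := by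
  classical
  have hM1 : (1 : ℝ) ≤ M := by exact_mod_cast hM
  have h1 : ∑ x ∈ S, gz C x = ∑ n ∈ range (M + 1), ∑ x ∈ S with x.natAbs = n, gz C x := by
    symm
    apply sum_fiberwise_of_maps_to
    intro x hx
    have := abs_le.1 (hS x hx)
    rw [mem_range]
    omega
  have h2 : ∀ n ∈ range (M + 1), ∑ x ∈ S with x.natAbs = n, gz C x ≤ 2 * Gm C n := by
    intro n _
    have h3 : ∀ x ∈ S.filter (fun x => x.natAbs = n), gz C x = Gm C n := by
      intro x hx
      unfold gz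
      rw [(mem_filter.1 hx).2]
    rw [sum_congr rfl h3, sum_const, nsmul_eq_mul]
    apply mul_le_mul_of_nonneg_right _ (zero_le_one.trans (one_le_Gm hC _))
    have h4 : S.filter (fun x => x.natAbs = n) ⊆ {(n : ℤ), -(n : ℤ)} := by
      intro x hx
      rw [mem_filter] at hx
      rw [mem_insert, mem_singleton]
      omega
    have h5 := (card_le_card h4).trans card_le_two
    exact_mod_cast h5
  rw [h1]
  refine (sum_le_sum h2).trans ?_
  rw [sum_range_succ']
  have h6 : Gm C 0 = 1 := by unfold Gm; simp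
  have h7 : ∑ n ∈ range M, 2 * Gm C (n + 1) ≤ 2 * (Real.exp (C * Zc) * M) := by
    rw [← mul_sum]
    apply mul_le_mul_of_nonneg_left _ (by norm_num)
    refine le_trans (le_of_eq ?_) (sum_Gm hC M)
    rw [range_eq_Ico, sum_Ico_add' (fun n => Gm C n) 0 M 1]
    rfl
  rw [h6]
  unfold mC
  have h8 : (2 + 2 * Real.exp (C * Zc)) * M = 2 * M + 2 * (Real.exp (C * Zc) * M) := by ring
  rw [h8]
  linarith

/-- the sum over an affine image -/
lemma sum_gz_aff {C : ℝ} (hC : 0 ≤ C) (M : ℕ) (hM : 1 ≤ M) (S : Finset ℤ) (σ : ℤ) (hσ : σ = 1 ∨ σ = -1) (d : ℤ)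
    (hS : ∀ x ∈ S, |d + σ * x| ≤ M) : ∑ x ∈ S, gz C (d + σ * x) ≤ mC C * M := by
  classical
  rw [← sum_image (s := S) (g := fun x => d + σ * x) (f := fun y => gz C y)]
  · apply sum_gz hC M hM
    intro y hy
    obtain ⟨x, hx, rfl⟩ := mem_image.1 hy
    exact hS x hx
  · intro x _ y _ h
    simp only at h
    rcases hσ with rfl | rfl <;> omega

lemma prod_image_leR {ι τ : Type*} [DecidableEq τ] (s : Finset ι) (h : ι → τ) (g : τ → ℝ) (hg : ∀ x, 1 ≤ g x) :
    ∏ b ∈ s.image h, g b ≤ ∏ a ∈ s, g (h a) := by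
  classical
  induction s using Finset.induction_on with
  | empty => simp
  | insert a s ha ih =>
    rw [image_insert, prod_insert ha]
    have h0 : 0 ≤ ∏ b ∈ s.image h, g b := prod_nonneg fun b _ => zero_le_one.trans (hg b)
    by_cases hm : h a ∈ s.image h
    · rw [insert_eq_of_mem hm]
      exact ih.trans (le_mul_of_one_le_left (h0.trans ih) (hg _))
    · rw [prod_insert hm]
      exact mul_le_mul_of_nonneg_left ih (zero_le_one.trans (hg _))

section
variable {κ : Type*} [Fintype κ] [DecidableEq κ]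

/-- the values of a tuple -/
def vs (η : κ → ℤ) : Finset ℤ := univ.image η

/-- the values of a tuple, moved -/
def vt (η : κ → ℤ) (j : ℤ) : Finset ℤ := univ.image (fun i => η i - j)

lemma PG_le (η η' : κ → ℤ) (j : ℤ) (K : ℝ) (hK : 1 ≤ K)
    (h : ∀ i l, gz 2 (η i - η l) ≤ K) (h' : ∀ i l, gz 2 (η' i - η' l) ≤ K) :
    PG (vs η ∪ vt η' j) ≤ (K ^ Fintype.card κ ^ 2) ^ 2 * (∏ q : κ × κ, gz 2 (η q.1 - η' q.2 + j)) ^ 2 := by
  classical
  set ζ : κ ⊕ κ → ℤ := Sum.elim η (fun i => η' i - j) with hζ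
  have hU : vs η ∪ vt η' j = univ.image ζ := by
    unfold vs vt
    ext t
    simp only [mem_union, mem_image, mem_univ, true_and, hζ, Sum.exists, Sum.elim_inl, Sum.elim_inr]
  have h1 : PG (vs η ∪ vt η' j) ≤ ∏ x : κ ⊕ κ, ∏ y : κ ⊕ κ, gz 2 (ζ x - ζ y) := by
    rw [hU]
    unfold PG
    have h2 : (univ.image ζ).offDiag ⊆ (univ : Finset ((κ ⊕ κ) × (κ ⊕ κ))).image (fun q => (ζ q.1, ζ q.2)) := by
      intro q hq
      rw [mem_offDiag, mem_image, mem_image] at hq
      obtain ⟨⟨x, _, hx⟩, ⟨y, _, hy⟩, _⟩ := hq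
      rw [mem_image]
      exact ⟨(x, y), mem_univ _, by simp only [hx, hy]⟩
    have h3 := prod_mono_one (f := fun q : ℤ × ℤ => gz 2 (q.1 - q.2)) h2
      (fun q => one_le_gz (by norm_num) _)
    refine h3.trans ?_
    refine (prod_image_leR univ (fun q : (κ ⊕ κ) × (κ ⊕ κ) => (ζ q.1, ζ q.2)) (fun q => gz 2 (q.1 - q.2))
      (fun q => one_le_gz (by norm_num) _)).trans (le_of_eq ?_)
    simp only
    rw [← univ_product_univ, prod_product]
  refine h1.trans ?_
  simp only [Fintype.prod_sum_type, prod_mul_distrib, hζ, Sum.elim_inl, Sum.elim_inr]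
  have e1 : ∏ x : κ, ∏ y : κ, gz 2 (η x - η y) ≤ K ^ Fintype.card κ ^ 2 := by
    calc ∏ x : κ, ∏ y : κ, gz 2 (η x - η y) ≤ ∏ _x : κ, ∏ _y : κ, K := by
          apply prod_le_prod (fun x _ => prod_nonneg fun y _ => gz_nonneg (by norm_num) _)
          intro x _
          exact prod_le_prod (fun y _ => gz_nonneg (by norm_num) _) (fun y _ => h x y)
      _ = K ^ Fintype.card κ ^ 2 := by
          rw [prod_const, prod_const, card_univ, ← pow_mul, sq]
  have e2 : ∏ x : κ, ∏ y : κ, gz 2 (η' x - j - (η' y - j)) ≤ K ^ Fintype.card κ ^ 2 := by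
    calc ∏ x : κ, ∏ y : κ, gz 2 (η' x - j - (η' y - j)) ≤ ∏ _x : κ, ∏ _y : κ, K := by
          apply prod_le_prod (fun x _ => prod_nonneg fun y _ => gz_nonneg (by norm_num) _)
          intro x _
          apply prod_le_prod (fun y _ => gz_nonneg (by norm_num) _)
          intro y _
          rw [sub_sub_sub_cancel_right]
          exact h' x y
      _ = K ^ Fintype.card κ ^ 2 := by
          rw [prod_const, prod_const, card_univ, ← pow_mul, sq]
  have e3 : ∏ x : κ, ∏ y : κ, gz 2 (η x - (η' y - j)) = ∏ q : κ × κ, gz 2 (η q.1 - η' q.2 + j) := by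
    rw [← univ_product_univ, prod_product]
    apply prod_congr rfl
    intro x _
    apply prod_congr rfl
    intro y _
    congr 1
    ring
  have e4 : ∏ x : κ, ∏ y : κ, gz 2 (η' x - j - η y) = ∏ q : κ × κ, gz 2 (η q.1 - η' q.2 + j) := by
    rw [prod_comm, ← univ_product_univ, prod_product]
    apply prod_congr rfl
    intro x _
    apply prod_congr rfl
    intro y _
    rw [← gz_neg]
    congr 1
    ring
  rw [e3, e4]
  have hP : 0 ≤ ∏ q : κ × κ, gz 2 (η q.1 - η' q.2 + j) := prod_nonneg fun q _ => gz_nonneg (by norm_num) _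
  have hX : 0 ≤ ∏ x : κ, ∏ y : κ, gz 2 (η x - η y) := prod_nonneg fun x _ => prod_nonneg fun y _ => gz_nonneg (by norm_num) _
  have hY : 0 ≤ ∏ x : κ, ∏ y : κ, gz 2 (η' x - j - (η' y - j)) :=
    prod_nonneg fun x _ => prod_nonneg fun y _ => gz_nonneg (by norm_num) _
  calc _ = (∏ x : κ, ∏ y : κ, gz 2 (η x - η y)) * (∏ x : κ, ∏ y : κ, gz 2 (η' x - j - (η' y - j))) *
        (∏ q : κ × κ, gz 2 (η q.1 - η' q.2 + j)) ^ 2 := by ring
    _ ≤ (K ^ Fintype.card κ ^ 2) * (K ^ Fintype.card κ ^ 2) * (∏ q : κ × κ, gz 2 (η q.1 - η' q.2 + j)) ^ 2 := by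
        apply mul_le_mul_of_nonneg_right _ (by positivity)
        exact mul_le_mul e1 e2 hY (hX.trans e1)
    _ = _ := by ring

/-- the exponent constant -/
noncomputable def c1 (κ : Type*) [Fintype κ] : ℝ := (1 + 2) ^ (4 * Fintype.card κ ^ 2)

lemma c1_nonneg : 0 ≤ c1 κ := by unfold c1; positivity

lemma gz2_le (h0 : 0 < Fintype.card κ) (d : ℤ) : gz 2 d ≤ gz (c1 κ) d := by
  have h1 := Gm_pow (4 * Fintype.card κ ^ 2) (C := 2) (by norm_num) d.natAbs
  unfold gz c1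
  refine le_trans ?_ h1
  exact le_self_pow₀ (one_le_Gm (by norm_num) _) (by positivity)

lemma PG_sq_le (h0 : 0 < Fintype.card κ) (η η' : κ → ℤ) (j : ℤ) (K : ℝ) (hK : 1 ≤ K)
    (h : ∀ i l, gz (c1 κ) (η i - η l) ≤ K) (h' : ∀ i l, gz (c1 κ) (η' i - η' l) ≤ K) :
    PG (vs η ∪ vt η' j) ^ 2 ≤ K ^ (4 * Fintype.card κ ^ 2) * ∑ q : κ × κ, gz (c1 κ) (η q.1 - η' q.2 + j) := by
  classical
  have : Nonempty κ := Fintype.card_pos_iff.1 h0
  have h1 := PG_le η η' j K hK (fun i l => (gz2_le h0 _).trans (h i l)) (fun i l => (gz2_le h0 _).trans (h' i l))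
  have hPG := one_le_PG (vs η ∪ vt η' j)
  have h2 := pow_le_pow_left₀ (by linarith) h1 2
  refine h2.trans ?_
  have h3 : ((K ^ Fintype.card κ ^ 2) ^ 2 * (∏ q : κ × κ, gz 2 (η q.1 - η' q.2 + j)) ^ 2) ^ 2 =
      K ^ (4 * Fintype.card κ ^ 2) * (∏ q : κ × κ, gz 2 (η q.1 - η' q.2 + j) ^ 4) := by
    rw [prod_pow, mul_pow, ← pow_mul, ← pow_mul, ← pow_mul]
    congr 2
    ring
  rw [h3]
  apply mul_le_mul_of_nonneg_left _ (by positivity)
  refine (prod_le_sum_pow univ univ_nonempty (fun q : κ × κ => gz 2 (η q.1 - η' q.2 + j) ^ 4)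
    (fun q _ => by have := gz_nonneg (C := 2) (by norm_num) (η q.1 - η' q.2 + j); positivity)).trans ?_
  apply sum_le_sum
  intro q _
  rw [← pow_mul, card_univ, Fintype.card_prod]
  have h4 := Gm_pow (4 * Fintype.card κ ^ 2) (C := 2) (by norm_num) (η q.1 - η' q.2 + j).natAbs
  unfold gz c1
  rw [← sq]
  exact h4

end

end Pool.Agent.Y842.JC
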