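import Pool.Agent.Y842.JC.Avg

set_option autoImplicit false

/-! Averages over boxes of tuples: boxes, the good tuples, the off-diagonal terms. -/

namespace Pool.Agent.Y842.JC
open Finset
open Pool.Agent.TH891.SG (Gm one_le_Gm sum_Gm Gm_pow Zc Zc_nonneg prod_le_sum_pow)

section
variable {κ : Type*} [Fintype κ] [DecidableEq κ]

/-- the sides of the box -/
noncomputable def bx (F : Finset κ) (a : κ → ℤ) (H : ℕ) (i : κ) : Finset ℤ := if i ∈ F then {a i} else Icc 1 (H : ℤ)

/-- the box -/
noncomputable def Bx (F : Finset κ) (a : κ → ℤ) (H : ℕ) : Finset (κ → ℤ) := Fintype.piFinset (bx F a H)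

lemma mem_Bx {F : Finset κ} {a : κ → ℤ} {H : ℕ} {η : κ → ℤ} :
    η ∈ Bx F a H ↔ (∀ i ∈ F, η i = a i) ∧ ∀ i, i ∉ F → 1 ≤ η i ∧ η i ≤ H := by
  unfold Bx
  rw [Fintype.mem_piFinset]
  constructor
  · intro h
    constructor
    · intro i hi
      have := h i
      unfold bx at this
      rw [if_pos hi, mem_singleton] at this
      exact this
    · intro i hi
      have := h i
      unfold bx at this
      rw [if_neg hi, mem_Icc] at this
      exact this
  · rintro ⟨h1, h2⟩ i
    unfold bx
    split_ifs with hi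
    · rw [mem_singleton]
      exact h1 i hi
    · rw [mem_Icc]
      exact h2 i hi

lemma prod_H (S : Finset κ) (x : ℝ) : ∏ i : κ, (if i ∈ S then (1 : ℝ) else x) = x ^ (Sᶜ).card := by
  rw [prod_ite, prod_const_one, one_mul, prod_const]
  congr 2
  ext i
  simp

lemma card_Bx (F : Finset κ) (a : κ → ℤ) (H : ℕ) : ((Bx F a H).card : ℝ) = (H : ℝ) ^ (Fᶜ).card := by
  unfold Bx
  rw [Fintype.card_piFinset, Nat.cast_prod, ← prod_H]
  apply prod_congr rfl
  intro i _
  unfold bx
  split_ifs
  · simp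
  · rw [Int.card_Icc]
    simp

lemma abs_Bx {F : Finset κ} {a : κ → ℤ} {H : ℕ} (ha : ∀ i ∈ F, |a i| ≤ H) {η : κ → ℤ} (hη : η ∈ Bx F a H) (i : κ) :
    |η i| ≤ H := by
  rw [mem_Bx] at hη
  by_cases hi : i ∈ F
  · rw [hη.1 i hi]
    exact ha i hi
  · have := hη.2 i hi
    rw [abs_le]
    omega

/-- moving one coordinate -/
lemma avg_update (F : Finset κ) (a : κ → ℤ) (H : ℕ) (l : κ) (hl : l ∉ F) (G : (κ → ℤ) → ℝ) :
    ∑ η ∈ Bx F a H, ∑ v ∈ Icc 1 (H : ℤ), G (Function.update η l v) = H * ∑ η ∈ Bx F a H, G η := by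
  have h1 : ∑ η ∈ Bx F a H, ∑ v ∈ Icc 1 (H : ℤ), G (Function.update η l v) =
      ∑ η ∈ Bx F a H, ∑ v ∈ Icc 1 (H : ℤ), G η := by
    rw [← sum_product', ← sum_product']
    apply sum_nbij' (fun x : (κ → ℤ) × ℤ => (Function.update x.1 l x.2, x.1 l))
      (fun x : (κ → ℤ) × ℤ => (Function.update x.1 l x.2, x.1 l))
    · intro x hx
      rw [mem_product, mem_Bx, mem_Icc] at hx
      rw [mem_product, mem_Bx, mem_Icc]
      simp only
      refine ⟨⟨fun i hi => ?_, fun i hi => ?_⟩, hx.1.2 l hl⟩
      · have : i ≠ l := fun h => hl (h ▸ hi)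
        rw [Function.update_of_ne this]
        exact hx.1.1 i hi
      · by_cases h : i = l
        · subst h
          rw [Function.update_self]
          exact hx.2
        · rw [Function.update_of_ne h]
          exact hx.1.2 i hi
    · intro x hx
      rw [mem_product, mem_Bx, mem_Icc] at hx
      rw [mem_product, mem_Bx, mem_Icc]
      simp only
      refine ⟨⟨fun i hi => ?_, fun i hi => ?_⟩, hx.1.2 l hl⟩
      · have : i ≠ l := fun h => hl (h ▸ hi)
        rw [Function.update_of_ne this]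
        exact hx.1.1 i hi
      · by_cases h : i = l
        · subst h
          rw [Function.update_self]
          exact hx.2
        · rw [Function.update_of_ne h]
          exact hx.1.2 i hi
    · intro x _
      simp
    · intro x _
      simp
    · intro x _
      rfl
  rw [h1, mul_sum]
  apply sum_congr rfl
  intro η _
  rw [sum_const, Int.card_Icc, nsmul_eq_mul]
  simp

open Classical in
/-- the good tuples -/
noncomputable def Gd (F : Finset κ) (a : κ → ℤ) (H : ℕ) (K : ℝ) : Finset (κ → ℤ) :=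
  (Bx F a H).filter (fun η => Function.Injective η ∧
    ∀ p ∈ F, ∀ q ∈ F, ∀ i l, gz (c1 κ) (η i - η l + (a p - a q)) ≤ K)

lemma mem_Gd {F : Finset κ} {a : κ → ℤ} {H : ℕ} {K : ℝ} {η : κ → ℤ} :
    η ∈ Gd F a H K ↔ η ∈ Bx F a H ∧ Function.Injective η ∧
      ∀ p ∈ F, ∀ q ∈ F, ∀ i l, gz (c1 κ) (η i - η l + (a p - a q)) ≤ K := by
  unfold Gd
  rw [mem_filter]

lemma Gd_le {F : Finset κ} (hF : F.Nonempty) {a : κ → ℤ} {H : ℕ} {K : ℝ} {η : κ → ℤ} (h : η ∈ Gd F a H K) (i l : κ) :
    gz (c1 κ) (η i - η l) ≤ K := by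
  obtain ⟨p, hp⟩ := hF
  have := (mem_Gd.1 h).2.2 p hp p hp i l
  rwa [sub_self, add_zero] at this

/-- few tuples are bad -/
lemma bad_count (F : Finset κ) (a : κ → ℤ) (H : ℕ) (hH : 1 ≤ H) (ha : ∀ i ∈ F, |a i| ≤ H)
    (hinj : ∀ i ∈ F, ∀ l ∈ F, a i = a l → i = l) (K0 K : ℝ) (hK0 : 0 ≤ K0) (hK : K0 < K)
    (hg : ∀ p ∈ F, ∀ q ∈ F, ∀ i ∈ F, ∀ l ∈ F, gz (c1 κ) (a i - a l + (a p - a q)) ≤ K0) :
    (((Bx F a H) \ (Gd F a H K)).card : ℝ) ≤
      ((Fintype.card κ : ℝ) ^ 2 / H + (Fintype.card κ : ℝ) ^ 4 * (4 * mC (c1 κ)) / K) * (Bx F a H).card := by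
  classical
  have hHr : (0 : ℝ) < H := by exact_mod_cast hH
  have hK' : 0 < K := lt_of_le_of_lt hK0 hK
  have hB0 : (0 : ℝ) ≤ (Bx F a H).card := Nat.cast_nonneg _
  have hmC : 0 ≤ mC (c1 κ) := zero_le_one.trans (mC_ge _)
  -- one pair with equal values
  have e1 : ∀ i l : κ, i ≠ l → (((Bx F a H).filter (fun η => η i = η l)).card : ℝ) ≤ 1 / H * (Bx F a H).card := by
    have e0 : ∀ i l : κ, i ≠ l → i ∉ F → (((Bx F a H).filter (fun η => η i = η l)).card : ℝ) ≤ 1 / H * (Bx F a H).card := by
      intro i l hil hi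
      have h1 := avg_update F a H i hi (fun η => if η i = η l then 1 else 0)
      have h2 : ∑ η ∈ Bx F a H, ∑ v ∈ Icc 1 (H : ℤ),
          (if Function.update η i v i = Function.update η i v l then (1 : ℝ) else 0) ≤ ∑ η ∈ Bx F a H, 1 := by
        apply sum_le_sum
        intro η _
        have h4 : ∀ v ∈ Icc 1 (H : ℤ), (if Function.update η i v i = Function.update η i v l then (1 : ℝ) else 0) =
            if v = η l then 1 else 0 := by
          intro v _
          rw [Function.update_self, Function.update_of_ne (Ne.symm hil)]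
        rw [sum_congr rfl h4, ← sum_filter, sum_const, nsmul_eq_mul, mul_one]
        have : (Icc 1 (H : ℤ)).filter (fun v => (v : ℤ) = η l) ⊆ {η l} := by
          intro v hv
          rw [mem_filter] at hv
          rw [mem_singleton]
          exact hv.2
        have h3 := (card_le_card this).trans (by simp : ({η l} : Finset ℤ).card ≤ 1)
        exact_mod_cast h3
      rw [h1] at h2
      rw [← sum_filter, sum_const, sum_const, nsmul_eq_mul, nsmul_eq_mul, mul_one, mul_one] at h2
      rw [one_div, inv_mul_eq_div, le_div_iff₀ hHr]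
      linarith
    intro i l hil
    by_cases hi : i ∈ F
    · by_cases hl : l ∈ F
      · have : (Bx F a H).filter (fun η => η i = η l) = ∅ := by
          apply filter_false_of_mem
          intro η hη h
          rw [mem_Bx] at hη
          rw [hη.1 i hi, hη.1 l hl] at h
          exact hil (hinj i hi l hl h)
        rw [this, card_empty]
        push_cast
        positivity
      · have := e0 l i hil.symm hl
        have h2 : (Bx F a H).filter (fun η => η i = η l) = (Bx F a H).filter (fun η => η l = η i) :=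
          filter_congr fun η _ => eq_comm
        rw [h2]
        exact this
    · exact e0 i l hil hi
  -- one large weight
  have e2 : ∀ p ∈ F, ∀ q ∈ F, ∀ i l : κ,
      (((Bx F a H).filter (fun η => K < gz (c1 κ) (η i - η l + (a p - a q)))).card : ℝ) ≤
        4 * mC (c1 κ) / K * (Bx F a H).card := by
    intro p hp q hq i l
    have hc0 : 0 ≤ c1 κ := c1_nonneg
    have hmar : ∑ η ∈ Bx F a H, gz (c1 κ) (η i - η l + (a p - a q)) ≤ 4 * mC (c1 κ) * (Bx F a H).card →
        (((Bx F a H).filter (fun η => K < gz (c1 κ) (η i - η l + (a p - a q)))).card : ℝ) ≤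
        4 * mC (c1 κ) / K * (Bx F a H).card := by
      intro h
      have h1 : K * ((Bx F a H).filter (fun η => K < gz (c1 κ) (η i - η l + (a p - a q)))).card ≤
          ∑ η ∈ Bx F a H, gz (c1 κ) (η i - η l + (a p - a q)) := by
        calc K * ((Bx F a H).filter (fun η => K < gz (c1 κ) (η i - η l + (a p - a q)))).card =
              ∑ η ∈ (Bx F a H).filter (fun η => K < gz (c1 κ) (η i - η l + (a p - a q))), K := by
              rw [sum_const, nsmul_eq_mul, mul_comm]
          _ ≤ ∑ η ∈ (Bx F a H).filter (fun η => K < gz (c1 κ) (η i - η l + (a p - a q))),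
                gz (c1 κ) (η i - η l + (a p - a q)) := sum_le_sum fun η hη => (mem_filter.1 hη).2.le
          _ ≤ _ := sum_le_sum_of_subset_of_nonneg (filter_subset _ _) fun η _ _ => gz_nonneg hc0 _
      rw [div_mul_eq_mul_div, le_div_iff₀ hK']
      linarith
    have hpq : |a p - a q| ≤ 2 * H := by
      have h1 := abs_le.1 (ha p hp)
      have h2 := abs_le.1 (ha q hq)
      rw [abs_le]
      omega
    have hpq' := abs_le.1 hpq
    by_cases hil : i = l
    · have : (Bx F a H).filter (fun η => K < gz (c1 κ) (η i - η l + (a p - a q))) = ∅ := by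
        apply filter_false_of_mem
        intro η _ h
        have h2 := hg p hp q hq p hp p hp
        rw [hil, sub_self] at h
        rw [sub_self] at h2
        linarith
      rw [this, card_empty]
      push_cast
      positivity
    by_cases hi : i ∈ F
    · by_cases hl : l ∈ F
      · have : (Bx F a H).filter (fun η => K < gz (c1 κ) (η i - η l + (a p - a q))) = ∅ := by
          apply filter_false_of_mem
          intro η hη h
          rw [mem_Bx] at hη
          rw [hη.1 i hi, hη.1 l hl] at h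
          have h2 := hg p hp q hq i hi l hl
          linarith
        rw [this, card_empty]
        push_cast
        positivity
      · apply hmar
        have h1 := avg_update F a H l hl (fun η => gz (c1 κ) (η i - η l + (a p - a q)))
        have h2 : ∑ η ∈ Bx F a H, ∑ v ∈ Icc 1 (H : ℤ),
            gz (c1 κ) (Function.update η l v i - Function.update η l v l + (a p - a q)) ≤
            ∑ η ∈ Bx F a H, mC (c1 κ) * (4 * H : ℕ) := by
          apply sum_le_sum
          intro η hη
          have h3 : ∀ v ∈ Icc 1 (H : ℤ), gz (c1 κ) (Function.update η l v i - Function.update η l v l + (a p - a q)) =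
              gz (c1 κ) ((η i + (a p - a q)) + (-1) * v) := by
            intro v _
            rw [Function.update_self, Function.update_of_ne hil]
            congr 1
            ring
          rw [sum_congr rfl h3]
          apply sum_gz_aff hc0 (4 * H) (by omega) _ (-1) (Or.inr rfl)
          intro v hv
          rw [mem_Icc] at hv
          have h4 := abs_le.1 (abs_Bx ha hη i)
          rw [abs_le]
          push_cast
          omega
        rw [h1, sum_const, nsmul_eq_mul] at h2
        push_cast at h2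
        have h5 : (H : ℝ) * ∑ η ∈ Bx F a H, gz (c1 κ) (η i - η l + (a p - a q)) ≤ H * (4 * mC (c1 κ) * (Bx F a H).card) := by
          linarith
        exact le_of_mul_le_mul_left h5 hHr
    · apply hmar
      have h1 := avg_update F a H i hi (fun η => gz (c1 κ) (η i - η l + (a p - a q)))
      have h2 : ∑ η ∈ Bx F a H, ∑ v ∈ Icc 1 (H : ℤ),
          gz (c1 κ) (Function.update η i v i - Function.update η i v l + (a p - a q)) ≤
          ∑ η ∈ Bx F a H, mC (c1 κ) * (4 * H : ℕ) := by
        apply sum_le_sum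
        intro η hη
        have h3 : ∀ v ∈ Icc 1 (H : ℤ), gz (c1 κ) (Function.update η i v i - Function.update η i v l + (a p - a q)) =
            gz (c1 κ) ((-η l + (a p - a q)) + 1 * v) := by
          intro v _
          rw [Function.update_self, Function.update_of_ne (Ne.symm hil)]
          congr 1
          ring
        rw [sum_congr rfl h3]
        apply sum_gz_aff hc0 (4 * H) (by omega) _ 1 (Or.inl rfl)
        intro v hv
        rw [mem_Icc] at hv
        have h4 := abs_le.1 (abs_Bx ha hη l)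
        rw [abs_le]
        push_cast
        omega
      rw [h1, sum_const, nsmul_eq_mul] at h2
      push_cast at h2
      have h5 : (H : ℝ) * ∑ η ∈ Bx F a H, gz (c1 κ) (η i - η l + (a p - a q)) ≤ H * (4 * mC (c1 κ) * (Bx F a H).card) := by
        linarith
      exact le_of_mul_le_mul_left h5 hHr
  have hsub : (Bx F a H) \ (Gd F a H K) ⊆
      ((univ : Finset (κ × κ)).filter (fun x => x.1 ≠ x.2)).biUnion (fun x => (Bx F a H).filter (fun η => η x.1 = η x.2)) ∪
      (((F ×ˢ F) ×ˢ (univ : Finset (κ × κ))).biUnion (fun x => (Bx F a H).filter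
        (fun η => K < gz (c1 κ) (η x.2.1 - η x.2.2 + (a x.1.1 - a x.1.2))))) := by
    intro η hη
    rw [mem_sdiff, mem_Gd] at hη
    obtain ⟨hη1, hη2⟩ := hη
    rw [mem_union]
    by_cases hinj' : Function.Injective η
    · right
      have : ¬ ∀ p ∈ F, ∀ q ∈ F, ∀ i l, gz (c1 κ) (η i - η l + (a p - a q)) ≤ K := fun h => hη2 ⟨hη1, hinj', h⟩
      push Not at this
      obtain ⟨p, hp, q, hq, i, l, h⟩ := this
      rw [mem_biUnion]
      exact ⟨((p, q), (i, l)), by simp [hp, hq], by rw [mem_filter]; exact ⟨hη1, h⟩⟩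
    · left
      have : ∃ i l, η i = η l ∧ i ≠ l := by
        unfold Function.Injective at hinj'
        push Not at hinj'
        obtain ⟨i, l, h1, h2⟩ := hinj'
        exact ⟨i, l, h1, h2⟩
      obtain ⟨i, l, h1, h2⟩ := this
      rw [mem_biUnion]
      exact ⟨(i, l), by simp [h2], by rw [mem_filter]; exact ⟨hη1, h1⟩⟩
  have h1 := card_le_card hsub
  have h2 : (((Bx F a H) \ (Gd F a H K)).card : ℝ) ≤
      (((univ : Finset (κ × κ)).filter (fun x => x.1 ≠ x.2)).biUnion (fun x => (Bx F a H).filter (fun η => η x.1 = η x.2))).card +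
      (((F ×ˢ F) ×ˢ (univ : Finset (κ × κ))).biUnion (fun x => (Bx F a H).filter
        (fun η => K < gz (c1 κ) (η x.2.1 - η x.2.2 + (a x.1.1 - a x.1.2))))).card := by
    exact_mod_cast h1.trans (card_union_le _ _)
  refine h2.trans ?_
  rw [add_mul]
  apply add_le_add
  · have h3 : ((((univ : Finset (κ × κ)).filter (fun x => x.1 ≠ x.2)).biUnion
        (fun x => (Bx F a H).filter (fun η => η x.1 = η x.2))).card : ℝ) ≤
        ∑ x ∈ (univ : Finset (κ × κ)).filter (fun x => x.1 ≠ x.2), (((Bx F a H).filter (fun η => η x.1 = η x.2)).card : ℝ) := by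
      exact_mod_cast card_biUnion_le
    refine h3.trans ?_
    refine (sum_le_sum fun x hx => e1 x.1 x.2 (mem_filter.1 hx).2).trans ?_
    rw [sum_const, nsmul_eq_mul]
    have h4 : (((univ : Finset (κ × κ)).filter (fun x => x.1 ≠ x.2)).card : ℝ) ≤ (Fintype.card κ : ℝ) ^ 2 := by
      have h5 := card_filter_le (univ : Finset (κ × κ)) (fun x => x.1 ≠ x.2)
      rw [card_univ, Fintype.card_prod, ← sq] at h5
      exact_mod_cast h5
    calc _ ≤ (Fintype.card κ : ℝ) ^ 2 * (1 / H * (Bx F a H).card) := mul_le_mul_of_nonneg_right h4 (by positivity)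
      _ = _ := by ring
  · have h3 : ((((F ×ˢ F) ×ˢ (univ : Finset (κ × κ))).biUnion (fun x => (Bx F a H).filter
        (fun η => K < gz (c1 κ) (η x.2.1 - η x.2.2 + (a x.1.1 - a x.1.2))))).card : ℝ) ≤
        ∑ x ∈ (F ×ˢ F) ×ˢ (univ : Finset (κ × κ)), (((Bx F a H).filter
          (fun η => K < gz (c1 κ) (η x.2.1 - η x.2.2 + (a x.1.1 - a x.1.2)))).card : ℝ) := by
      exact_mod_cast card_biUnion_le
    refine h3.trans ?_
    have h6 : ∀ x ∈ (F ×ˢ F) ×ˢ (univ : Finset (κ × κ)), (((Bx F a H).filter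
          (fun η => K < gz (c1 κ) (η x.2.1 - η x.2.2 + (a x.1.1 - a x.1.2)))).card : ℝ) ≤
          4 * mC (c1 κ) / K * (Bx F a H).card := by
      intro x hx
      rw [mem_product, mem_product] at hx
      exact e2 x.1.1 hx.1.1 x.1.2 hx.1.2 x.2.1 x.2.2
    refine (sum_le_sum h6).trans ?_
    rw [sum_const, nsmul_eq_mul]
    have h4 : (((F ×ˢ F) ×ˢ (univ : Finset (κ × κ))).card : ℝ) ≤ (Fintype.card κ : ℝ) ^ 4 := by
      rw [card_product, card_product, card_univ, Fintype.card_prod]
      have h5 : F.card ≤ Fintype.card κ := card_le_univ F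
      have h7 : F.card * F.card * (Fintype.card κ * Fintype.card κ) ≤ Fintype.card κ ^ 4 := by
        calc F.card * F.card * (Fintype.card κ * Fintype.card κ) ≤
              Fintype.card κ * Fintype.card κ * (Fintype.card κ * Fintype.card κ) :=
              Nat.mul_le_mul_right _ (Nat.mul_le_mul h5 h5)
          _ = _ := by ring
      exact_mod_cast h7
    have h8 : 0 ≤ 4 * mC (c1 κ) / K * (Bx F a H).card := by positivity
    calc _ ≤ (Fintype.card κ : ℝ) ^ 4 * (4 * mC (c1 κ) / K * (Bx F a H).card) := mul_le_mul_of_nonneg_right h4 h8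
      _ = _ := by ring

/-- the off-diagonal terms -/
lemma av1 (h0 : 0 < Fintype.card κ) (F : Finset κ) (hF : F.Nonempty) (a : κ → ℤ) (H : ℕ) (hH : 1 ≤ H) (ha : ∀ i ∈ F, |a i| ≤ H)
    (K : ℝ) (hK : 1 ≤ K) (η η' : κ → ℤ) (hη : η ∈ Gd F a H K) (hη' : η' ∈ Gd F a H K) :
    ∑ j ∈ Ioo (-(H : ℤ)) H, PG (vs η ∪ vt η' j) ^ 2 ≤
      K ^ (4 * Fintype.card κ ^ 2) * ((Fintype.card κ : ℝ) ^ 2 * (3 * mC (c1 κ))) * H := by
  classical
  have hc0 : 0 ≤ c1 κ := c1_nonneg
  have h1 : ∀ j ∈ Ioo (-(H : ℤ)) H, PG (vs η ∪ vt η' j) ^ 2 ≤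
      K ^ (4 * Fintype.card κ ^ 2) * ∑ q : κ × κ, gz (c1 κ) (η q.1 - η' q.2 + j) := by
    intro j _
    exact PG_sq_le h0 η η' j K hK (Gd_le hF hη) (Gd_le hF hη')
  refine (sum_le_sum h1).trans ?_
  rw [← mul_sum, sum_comm, mul_assoc]
  apply mul_le_mul_of_nonneg_left _ (by positivity)
  have h2 : ∀ q ∈ (univ : Finset (κ × κ)), ∑ j ∈ Ioo (-(H : ℤ)) H, gz (c1 κ) (η q.1 - η' q.2 + j) ≤ mC (c1 κ) * (3 * H : ℕ) := by
    intro q _
    have h3 : ∀ j ∈ Ioo (-(H : ℤ)) H, gz (c1 κ) (η q.1 - η' q.2 + j) = gz (c1 κ) (η q.1 - η' q.2 + 1 * j) := by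
      intro j _
      rw [one_mul]
    rw [sum_congr rfl h3]
    apply sum_gz_aff hc0 (3 * H) (by omega) _ 1 (Or.inl rfl)
    intro j hj
    rw [mem_Ioo] at hj
    have h4 := abs_le.1 (abs_Bx ha (mem_Gd.1 hη).1 q.1)
    have h5 := abs_le.1 (abs_Bx ha (mem_Gd.1 hη').1 q.2)
    rw [abs_le]
    push_cast
    omega
  refine (sum_le_sum h2).trans (le_of_eq ?_)
  rw [sum_const, card_univ, Fintype.card_prod, nsmul_eq_mul]
  push_cast
  ring

end

end Pool.Agent.Y842.JC
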