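import Pool.Agent.Y842.JC.Avg2

set_option autoImplicit false

/-! Averages over boxes of tuples: the overlapping terms. -/

namespace Pool.Agent.Y842.JC
open Finset
open Pool.Agent.TH891.SG (Gm one_le_Gm sum_Gm Gm_pow Zc Zc_nonneg prod_le_sum_pow)

section
variable {κ : Type*} [Fintype κ] [DecidableEq κ]

open Classical in
/-- the tuples with a given overlap -/
noncomputable def Om (F : Finset κ) (a : κ → ℤ) (H : ℕ) (η : κ → ℤ) (P : Finset κ) (φ : κ → κ) (j : ℤ) : Finset (κ → ℤ) :=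
  (Bx F a H).filter (fun η' => ∀ l ∈ P, η' l - j = η (φ l))

lemma mem_Om {F : Finset κ} {a : κ → ℤ} {H : ℕ} {η : κ → ℤ} {P : Finset κ} {φ : κ → κ} {j : ℤ} {η' : κ → ℤ} :
    η' ∈ Om F a H η P φ j ↔ η' ∈ Bx F a H ∧ ∀ l ∈ P, η' l - j = η (φ l) := by
  unfold Om
  rw [mem_filter]

/-- the constant for one move -/
noncomputable def Ej (F : Finset κ) (a : κ → ℤ) (K : ℝ) (η : κ → ℤ) (i0 l0 : κ) (j : ℤ) : ℝ :=
  K + 3 * mC (c1 κ) + (if l0 ∈ F then gz (c1 κ) (η i0 - a l0 + j) else 0)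

lemma fix_j (F : Finset κ) (a : κ → ℤ) (H : ℕ) (hH : 1 ≤ H) (K : ℝ) (hK : 1 ≤ K) (η : κ → ℤ)
    (hη : ∀ i, |η i| ≤ H) (hg : ∀ i l, gz (c1 κ) (η i - η l) ≤ K) (P : Finset κ) (φ : κ → κ) (i0 l0 : κ) (j : ℤ) (hj : |j| ≤ H) :
    ∑ η' ∈ Om F a H η P φ j, gz (c1 κ) (η i0 - η' l0 + j) ≤ Ej F a K η i0 l0 j * (H : ℝ) ^ ((P ∪ F)ᶜ).card := by
  classical
  have hc0 : 0 ≤ c1 κ := c1_nonneg
  have hHr : (1 : ℝ) ≤ H := by exact_mod_cast hH
  have hmC : 1 ≤ mC (c1 κ) := mC_ge _
  set t : κ → Finset ℤ := fun l => (bx F a H l).filter (fun v => l ∈ P → v - j = η (φ l)) with ht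
  have h1 : Om F a H η P φ j = Fintype.piFinset t := by
    ext η'
    rw [mem_Om]
    simp only [Bx, mem_filter, Fintype.mem_piFinset, ht]
    constructor
    · rintro ⟨h, h'⟩ l
      exact ⟨h l, h' l⟩
    · intro h
      exact ⟨fun l => (h l).1, fun l => (h l).2⟩
  set E : ℝ := Ej F a K η i0 l0 j with hE
  have hE3 : 3 * mC (c1 κ) ≤ E := by
    rw [hE]
    unfold Ej
    have : 0 ≤ (if l0 ∈ F then gz (c1 κ) (η i0 - a l0 + j) else 0) := by
      split_ifs
      · exact gz_nonneg hc0 _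
      · exact le_rfl
    linarith
  have hEK : K ≤ E := by
    rw [hE]
    unfold Ej
    have : 0 ≤ (if l0 ∈ F then gz (c1 κ) (η i0 - a l0 + j) else 0) := by
      split_ifs
      · exact gz_nonneg hc0 _
      · exact le_rfl
    linarith
  have hE0 : 0 ≤ E := by linarith
  obtain ⟨G, hG⟩ : ∃ G : κ → ℤ → ℝ, G = fun (i : κ) (v : ℤ) => if i = l0 then gz (c1 κ) (η i0 - v + j) else 1 := ⟨_, rfl⟩
  have h2 : ∀ η' ∈ Fintype.piFinset t, gz (c1 κ) (η i0 - η' l0 + j) = ∏ i, G i (η' i) := by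
    intro η' _
    rw [hG]
    simp only
    rw [Finset.prod_ite_eq' univ l0 (fun i => gz (c1 κ) (η i0 - η' i + j)), if_pos (mem_univ _)]
  have hpu := Finset.prod_univ_sum t G
  rw [h1, sum_congr rfl h2, ← hpu]
  have h3 : ∀ i ∈ (univ : Finset κ), ∑ v ∈ t i, G i v ≤
      (if i = l0 then E else 1) * (if i ∈ P ∪ F then (1 : ℝ) else H) := by
    intro i _
    rw [hG]
    simp only
    by_cases hi : i = l0
    · subst hi
      simp only [if_true]
      by_cases hP : i ∈ P
      · rw [if_pos (mem_union_left _ hP), mul_one]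
        have h4 : t i ⊆ {j + η (φ i)} := by
          intro v hv
          rw [ht, mem_filter] at hv
          rw [mem_singleton]
          have := hv.2 hP
          omega
        calc ∑ v ∈ t i, gz (c1 κ) (η i0 - v + j) ≤ ∑ v ∈ {j + η (φ i)}, gz (c1 κ) (η i0 - v + j) :=
              sum_le_sum_of_subset_of_nonneg h4 fun v _ _ => gz_nonneg hc0 _
          _ = gz (c1 κ) (η i0 - η (φ i)) := by
              rw [sum_singleton]
              congr 1
              ring
          _ ≤ K := hg _ _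
          _ ≤ E := hEK
      · by_cases hF : i ∈ F
        · rw [if_pos (mem_union_right _ hF), mul_one]
          have h4 : t i ⊆ {a i} := by
            intro v hv
            rw [ht, mem_filter] at hv
            have := hv.1
            unfold bx at this
            rwa [if_pos hF] at this
          calc ∑ v ∈ t i, gz (c1 κ) (η i0 - v + j) ≤ ∑ v ∈ {a i}, gz (c1 κ) (η i0 - v + j) :=
                sum_le_sum_of_subset_of_nonneg h4 fun v _ _ => gz_nonneg hc0 _
            _ = gz (c1 κ) (η i0 - a i + j) := by rw [sum_singleton]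
            _ ≤ E := by
                rw [hE]
                unfold Ej
                rw [if_pos hF]
                linarith
        · rw [if_neg (by rw [mem_union]; tauto)]
          have h4 : t i ⊆ Icc 1 (H : ℤ) := by
            intro v hv
            rw [ht, mem_filter] at hv
            have := hv.1
            unfold bx at this
            rwa [if_neg hF] at this
          calc ∑ v ∈ t i, gz (c1 κ) (η i0 - v + j) ≤ ∑ v ∈ Icc 1 (H : ℤ), gz (c1 κ) (η i0 - v + j) :=
                sum_le_sum_of_subset_of_nonneg h4 fun v _ _ => gz_nonneg hc0 _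
            _ = ∑ v ∈ Icc 1 (H : ℤ), gz (c1 κ) ((η i0 + j) + (-1) * v) := by
                apply sum_congr rfl
                intro v _
                congr 1
                ring
            _ ≤ mC (c1 κ) * (3 * H : ℕ) := by
                apply sum_gz_aff hc0 (3 * H) (by omega) _ (-1) (Or.inr rfl)
                intro v hv
                rw [mem_Icc] at hv
                have h5 := abs_le.1 (hη i0)
                have h6 := abs_le.1 hj
                rw [abs_le]
                push_cast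
                omega
            _ = 3 * mC (c1 κ) * H := by push_cast; ring
            _ ≤ E * H := mul_le_mul_of_nonneg_right hE3 (by positivity)
    · simp only [if_neg hi]
      rw [sum_const, nsmul_eq_mul, mul_one, one_mul]
      by_cases hP : i ∈ P
      · rw [if_pos (mem_union_left _ hP)]
        have h4 : t i ⊆ {j + η (φ i)} := by
          intro v hv
          rw [ht, mem_filter] at hv
          rw [mem_singleton]
          have := hv.2 hP
          omega
        have h5 := (card_le_card h4).trans (by simp : ({j + η (φ i)} : Finset ℤ).card ≤ 1)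
        exact_mod_cast h5
      · by_cases hF : i ∈ F
        · rw [if_pos (mem_union_right _ hF)]
          have h4 : t i ⊆ {a i} := by
            intro v hv
            rw [ht, mem_filter] at hv
            have := hv.1
            unfold bx at this
            rwa [if_pos hF] at this
          have h5 := (card_le_card h4).trans (by simp : ({a i} : Finset ℤ).card ≤ 1)
          exact_mod_cast h5
        · rw [if_neg (by rw [mem_union]; tauto)]
          have h4 : t i ⊆ Icc 1 (H : ℤ) := by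
            intro v hv
            rw [ht, mem_filter] at hv
            have := hv.1
            unfold bx at this
            rwa [if_neg hF] at this
          have h5 := (card_le_card h4).trans (by simp : (Icc 1 (H : ℤ)).card ≤ H)
          exact_mod_cast h5
  have h0 : ∀ i ∈ (univ : Finset κ), 0 ≤ ∑ v ∈ t i, G i v := by
    intro i _
    apply sum_nonneg
    intro v _
    rw [hG]
    simp only
    split_ifs
    · exact gz_nonneg hc0 _
    · exact zero_le_one
  refine (prod_le_prod h0 h3).trans (le_of_eq ?_)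
  rw [prod_mul_distrib, prod_H, Finset.prod_ite_eq' univ l0 (fun _ => E), if_pos (mem_univ _)]

/-- one pattern -/
lemma pat (F : Finset κ) (hF : F.Nonempty) (a : κ → ℤ) (H : ℕ) (hH : 1 ≤ H) (ha : ∀ i ∈ F, |a i| ≤ H)
    (K : ℝ) (hK : 1 ≤ K) (η : κ → ℤ) (hη : η ∈ Gd F a H K) (L : ℝ) (hL : 1 ≤ L) (hLH : L ≤ H)
    (P : Finset κ) (hP : P.Nonempty) (φ : κ → κ) (i0 l0 : κ) :
    L ^ P.card * ∑ j ∈ Ioo (-(H : ℤ)) H, ∑ η' ∈ Om F a H η P φ j, gz (c1 κ) (η i0 - η' l0 + j) ≤
      (2 * K + 9 * mC (c1 κ)) * (L ^ F.card * (H : ℝ) ^ (Fᶜ).card) := by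
  classical
  have hc0 : 0 ≤ c1 κ := c1_nonneg
  have hHr : (1 : ℝ) ≤ H := by exact_mod_cast hH
  have hmC : 1 ≤ mC (c1 κ) := mC_ge _
  have hηB := (mem_Gd.1 hη).1
  have hη1 : ∀ i, |η i| ≤ H := abs_Bx ha hηB
  have hg := Gd_le hF hη
  have hjH : ∀ j ∈ Ioo (-(H : ℤ)) H, |j| ≤ H := by
    intro j hj
    rw [mem_Ioo] at hj
    rw [abs_le]
    omega
  have hF1 : 1 ≤ F.card := hF.card_pos
  have hP1 : 1 ≤ P.card := hP.card_pos
  have hEj0 : ∀ j, 0 ≤ Ej F a K η i0 l0 j := by
    intro j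
    unfold Ej
    have : 0 ≤ (if l0 ∈ F then gz (c1 κ) (η i0 - a l0 + j) else 0) := by
      split_ifs
      · exact gz_nonneg hc0 _
      · exact le_rfl
    linarith
  by_cases hPF : (P ∩ F).Nonempty
  · obtain ⟨l1, hl1⟩ := hPF
    rw [mem_inter] at hl1
    have h1 : ∑ j ∈ Ioo (-(H : ℤ)) H, ∑ η' ∈ Om F a H η P φ j, gz (c1 κ) (η i0 - η' l0 + j) ≤
        (2 * K + 3 * mC (c1 κ)) * (H : ℝ) ^ ((P ∪ F)ᶜ).card := by
      have h2 : ∀ j ∈ Ioo (-(H : ℤ)) H, j ≠ a l1 - η (φ l1) → ∑ η' ∈ Om F a H η P φ j, gz (c1 κ) (η i0 - η' l0 + j) = 0 := by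
        intro j _ hj
        have : Om F a H η P φ j = ∅ := by
          apply eq_empty_of_forall_notMem
          intro η' hη'
          rw [mem_Om, mem_Bx] at hη'
          have h3 := hη'.2 l1 hl1.1
          rw [hη'.1.1 l1 hl1.2] at h3
          apply hj
          omega
        rw [this, sum_empty]
      have hnn : 0 ≤ (2 * K + 3 * mC (c1 κ)) * (H : ℝ) ^ ((P ∪ F)ᶜ).card := by positivity
      by_cases hm : a l1 - η (φ l1) ∈ Ioo (-(H : ℤ)) H
      · rw [sum_eq_single (a l1 - η (φ l1)) h2 (fun h => absurd hm h)]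
        refine (fix_j F a H hH K hK η hη1 hg P φ i0 l0 _ (hjH _ hm)).trans ?_
        apply mul_le_mul_of_nonneg_right _ (by positivity)
        unfold Ej
        split_ifs with hl0
        · have h3 := (mem_Gd.1 hη).2.2 l1 hl1.2 l0 hl0 i0 (φ l1)
          have h4 : η i0 - a l0 + (a l1 - η (φ l1)) = η i0 - η (φ l1) + (a l1 - a l0) := by ring
          rw [h4]
          linarith
        · linarith
      · rw [sum_eq_zero]
        · exact hnn
        · intro j hj
          apply h2 j hj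
          rintro rfl
          exact hm hj
    refine (mul_le_mul_of_nonneg_left h1 (by positivity)).trans ?_
    have hcard : (P ∪ F)ᶜ.card + (P \ F).card = (Fᶜ).card := by
      have e1 : (P ∪ F)ᶜ ∪ (P \ F) = Fᶜ := by
        ext x
        simp only [mem_union, mem_compl, mem_sdiff]
        tauto
      have e2 : Disjoint ((P ∪ F)ᶜ) (P \ F) := by
        rw [disjoint_left]
        intro x
        simp only [mem_compl, mem_union, mem_sdiff]
        tauto
      rw [← e1, card_union_of_disjoint e2]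
    have hcard2 : P.card ≤ F.card + (P \ F).card := by
      have e3 : P ⊆ F ∪ (P \ F) := by
        intro x hx
        simp only [mem_union, mem_sdiff]
        tauto
      exact (card_le_card e3).trans (card_union_le _ _)
    have h5 : L ^ P.card * (H : ℝ) ^ ((P ∪ F)ᶜ).card ≤ L ^ F.card * (H : ℝ) ^ (Fᶜ).card := by
      calc L ^ P.card * (H : ℝ) ^ ((P ∪ F)ᶜ).card ≤ L ^ (F.card + (P \ F).card) * (H : ℝ) ^ ((P ∪ F)ᶜ).card :=
            mul_le_mul_of_nonneg_right (pow_le_pow_right₀ hL hcard2) (by positivity)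
        _ = L ^ F.card * (L ^ (P \ F).card * (H : ℝ) ^ ((P ∪ F)ᶜ).card) := by rw [pow_add]; ring
        _ ≤ L ^ F.card * ((H : ℝ) ^ (P \ F).card * (H : ℝ) ^ ((P ∪ F)ᶜ).card) := by
            apply mul_le_mul_of_nonneg_left _ (by positivity)
            apply mul_le_mul_of_nonneg_right _ (by positivity)
            exact pow_le_pow_left₀ (by linarith) hLH _
        _ = L ^ F.card * (H : ℝ) ^ (Fᶜ).card := by rw [← pow_add, add_comm (P \ F).card, hcard]
    calc _ = (2 * K + 3 * mC (c1 κ)) * (L ^ P.card * (H : ℝ) ^ ((P ∪ F)ᶜ).card) := by ring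
      _ ≤ (2 * K + 3 * mC (c1 κ)) * (L ^ F.card * (H : ℝ) ^ (Fᶜ).card) := mul_le_mul_of_nonneg_left h5 (by positivity)
      _ ≤ _ := by
          apply mul_le_mul_of_nonneg_right _ (by positivity)
          linarith
  · have hPF' : P ∩ F = ∅ := not_nonempty_iff_eq_empty.1 hPF
    have h1 : ∑ j ∈ Ioo (-(H : ℤ)) H, ∑ η' ∈ Om F a H η P φ j, gz (c1 κ) (η i0 - η' l0 + j) ≤
        (2 * K + 9 * mC (c1 κ)) * H * (H : ℝ) ^ ((P ∪ F)ᶜ).card := by
      have h2 : ∀ j ∈ Ioo (-(H : ℤ)) H, ∑ η' ∈ Om F a H η P φ j, gz (c1 κ) (η i0 - η' l0 + j) ≤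
          Ej F a K η i0 l0 j * (H : ℝ) ^ ((P ∪ F)ᶜ).card := by
        intro j hj
        exact fix_j F a H hH K hK η hη1 hg P φ i0 l0 j (hjH j hj)
      refine (sum_le_sum h2).trans ?_
      rw [← sum_mul]
      apply mul_le_mul_of_nonneg_right _ (by positivity)
      unfold Ej
      rw [sum_add_distrib, sum_const, nsmul_eq_mul]
      have h3 : ((Ioo (-(H : ℤ)) H).card : ℝ) ≤ 2 * H := by
        rw [Int.card_Ioo]
        have : ((H : ℤ) - -(H : ℤ) - 1).toNat ≤ 2 * H := by omega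
        exact_mod_cast this
      have h4 : ∑ j ∈ Ioo (-(H : ℤ)) H, (if l0 ∈ F then gz (c1 κ) (η i0 - a l0 + j) else 0) ≤ 3 * mC (c1 κ) * H := by
        by_cases hl0 : l0 ∈ F
        · simp only [if_pos hl0]
          have h5 : ∑ j ∈ Ioo (-(H : ℤ)) H, gz (c1 κ) (η i0 - a l0 + 1 * j) ≤ mC (c1 κ) * (3 * H : ℕ) := by
            apply sum_gz_aff hc0 (3 * H) (by omega) _ 1 (Or.inl rfl)
            intro j hj
            have h6 := abs_le.1 (hη1 i0)
            have h7 := abs_le.1 (ha l0 hl0)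
            rw [mem_Ioo] at hj
            rw [abs_le]
            push_cast
            omega
          simp only [one_mul] at h5
          push_cast at h5
          linarith
        · simp only [if_neg hl0]
          rw [sum_const_zero]
          positivity
      have h5 : ((Ioo (-(H : ℤ)) H).card : ℝ) * (K + 3 * mC (c1 κ)) ≤ 2 * H * (K + 3 * mC (c1 κ)) :=
        mul_le_mul_of_nonneg_right h3 (by positivity)
      linarith
    refine (mul_le_mul_of_nonneg_left h1 (by positivity)).trans ?_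
    have hcard : (P ∪ F)ᶜ.card + P.card = (Fᶜ).card := by
      have e1 : (P ∪ F)ᶜ ∪ P = Fᶜ := by
        ext x
        simp only [mem_union, mem_compl]
        have : x ∉ P ∩ F := by rw [hPF']; simp
        rw [mem_inter] at this
        tauto
      have e2 : Disjoint ((P ∪ F)ᶜ) P := by
        rw [disjoint_left]
        intro x
        simp only [mem_compl, mem_union]
        tauto
      rw [← e1, card_union_of_disjoint e2]
    have h5 : L ^ P.card * ((H : ℝ) * (H : ℝ) ^ ((P ∪ F)ᶜ).card) ≤ L ^ F.card * (H : ℝ) ^ (Fᶜ).card := by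
      obtain ⟨m, hm⟩ : ∃ m, P.card = m + 1 := ⟨P.card - 1, by omega⟩
      calc L ^ P.card * ((H : ℝ) * (H : ℝ) ^ ((P ∪ F)ᶜ).card) = L * (L ^ m * ((H : ℝ) * (H : ℝ) ^ ((P ∪ F)ᶜ).card)) := by
            rw [hm, pow_succ]; ring
        _ ≤ L ^ F.card * ((H : ℝ) ^ m * ((H : ℝ) * (H : ℝ) ^ ((P ∪ F)ᶜ).card)) := by
            apply mul_le_mul
            · exact le_self_pow₀ hL (by omega)
            · apply mul_le_mul_of_nonneg_right _ (by positivity)
              exact pow_le_pow_left₀ (by linarith) hLH _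
            · positivity
            · positivity
        _ = L ^ F.card * (H : ℝ) ^ (Fᶜ).card := by
            rw [← hcard, hm]
            ring
    calc _ = (2 * K + 9 * mC (c1 κ)) * (L ^ P.card * ((H : ℝ) * (H : ℝ) ^ ((P ∪ F)ᶜ).card)) := by ring
      _ ≤ _ := mul_le_mul_of_nonneg_left h5 (by positivity)

open Classical in
/-- the overlapping terms -/
lemma av2 (h0 : 0 < Fintype.card κ) (F : Finset κ) (hF : F.Nonempty) (a : κ → ℤ) (H : ℕ) (hH : 1 ≤ H) (ha : ∀ i ∈ F, |a i| ≤ H)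
    (K : ℝ) (hK : 1 ≤ K) (η : κ → ℤ) (hη : η ∈ Gd F a H K) (L : ℝ) (hL : 1 ≤ L) (hLH : L ≤ H) :
    ∑ η' ∈ Gd F a H K, ∑ j ∈ (Ioo (-(H : ℤ)) H).filter (fun j => ¬ Disjoint (vs η) (vt η' j)),
      L ^ (vs η ∩ vt η' j).card * PG (vs η ∪ vt η' j) ^ 2 ≤
      (K ^ (4 * Fintype.card κ ^ 2) * ((Fintype.card κ : ℝ) ^ 2 * (2 ^ Fintype.card κ * (Fintype.card κ : ℝ) ^ Fintype.card κ)) *
        (2 * K + 9 * mC (c1 κ))) * (L ^ F.card * (H : ℝ) ^ (Fᶜ).card) := by
  classical
  have : Nonempty κ := Fintype.card_pos_iff.1 h0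
  have hc0 : 0 ≤ c1 κ := c1_nonneg
  have hK0 : 0 ≤ K := by linarith
  have hinj : Function.Injective η := (mem_Gd.1 hη).2.1
  set 𝓟 : Finset (Finset κ) := (univ : Finset (Finset κ)).filter (fun P => P.Nonempty) with h𝓟
  -- the pattern of one pair
  have hpat : ∀ η' : κ → ℤ, ∀ j : ℤ, ¬ Disjoint (vs η) (vt η' j) →
      L ^ (vs η ∩ vt η' j).card ≤ ∑ P ∈ 𝓟, ∑ φ : κ → κ, if ∀ l ∈ P, η' l - j = η (φ l) then L ^ P.card else 0 := by
    intro η' j hd
    set P0 : Finset κ := univ.filter (fun l => η' l - j ∈ vs η) with hP0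
    have hφ : ∀ l : κ, ∃ i : κ, l ∈ P0 → η' l - j = η i := by
      intro l
      by_cases hl : l ∈ P0
      · rw [hP0, mem_filter] at hl
        have := hl.2
        unfold vs at this
        rw [mem_image] at this
        obtain ⟨i, _, hi⟩ := this
        exact ⟨i, fun _ => hi.symm⟩
      · exact ⟨Classical.arbitrary κ, fun h => absurd h hl⟩
    choose φ0 hφ0 using hφ
    have hne : P0.Nonempty := by
      rw [not_disjoint_iff] at hd
      obtain ⟨t, ht1, ht2⟩ := hd
      unfold vt at ht2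
      rw [mem_image] at ht2
      obtain ⟨l, _, hl⟩ := ht2
      exact ⟨l, by rw [hP0, mem_filter, hl]; exact ⟨mem_univ _, ht1⟩⟩
    have hcard : (vs η ∩ vt η' j).card ≤ P0.card := by
      have : vs η ∩ vt η' j ⊆ P0.image (fun l => η' l - j) := by
        intro t ht
        rw [mem_inter] at ht
        have h2 := ht.2
        unfold vt at h2
        rw [mem_image] at h2
        obtain ⟨l, _, hl⟩ := h2
        rw [mem_image]
        exact ⟨l, by rw [hP0, mem_filter, hl]; exact ⟨mem_univ _, ht.1⟩, hl⟩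
      exact (card_le_card this).trans card_image_le
    have hnn : ∀ P ∈ 𝓟, ∀ φ ∈ (univ : Finset (κ → κ)), (0 : ℝ) ≤ if ∀ l ∈ P, η' l - j = η (φ l) then L ^ P.card else 0 := by
      intro P _ φ _
      split_ifs
      · positivity
      · exact le_rfl
    calc L ^ (vs η ∩ vt η' j).card ≤ L ^ P0.card := pow_le_pow_right₀ hL hcard
      _ = if ∀ l ∈ P0, η' l - j = η (φ0 l) then L ^ P0.card else 0 := by
          rw [if_pos]
          exact fun l hl => hφ0 l hl
      _ ≤ ∑ φ : κ → κ, if ∀ l ∈ P0, η' l - j = η (φ l) then L ^ P0.card else 0 :=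
          single_le_sum (f := fun φ : κ → κ => if ∀ l ∈ P0, η' l - j = η (φ l) then L ^ P0.card else 0)
            (hnn P0 (by rw [h𝓟, mem_filter]; exact ⟨mem_univ _, hne⟩)) (mem_univ φ0)
      _ ≤ ∑ P ∈ 𝓟, ∑ φ : κ → κ, if ∀ l ∈ P, η' l - j = η (φ l) then L ^ P.card else 0 :=
          single_le_sum (f := fun P => ∑ φ : κ → κ, if ∀ l ∈ P, η' l - j = η (φ l) then L ^ P.card else 0)
            (fun P hP => sum_nonneg (hnn P hP)) (by rw [h𝓟, mem_filter]; exact ⟨mem_univ _, hne⟩)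
  have h1 : ∑ η' ∈ Gd F a H K, ∑ j ∈ (Ioo (-(H : ℤ)) H).filter (fun j => ¬ Disjoint (vs η) (vt η' j)),
      L ^ (vs η ∩ vt η' j).card * PG (vs η ∪ vt η' j) ^ 2 ≤
      ∑ η' ∈ Gd F a H K, ∑ j ∈ Ioo (-(H : ℤ)) H,
        (∑ P ∈ 𝓟, ∑ φ : κ → κ, if ∀ l ∈ P, η' l - j = η (φ l) then L ^ P.card else 0) *
          (K ^ (4 * Fintype.card κ ^ 2) * ∑ q : κ × κ, gz (c1 κ) (η q.1 - η' q.2 + j)) := by
    apply sum_le_sum
    intro η' hη'
    have hnn : ∀ j : ℤ, 0 ≤ (∑ P ∈ 𝓟, ∑ φ : κ → κ, if ∀ l ∈ P, η' l - j = η (φ l) then L ^ P.card else 0) := by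
      intro j
      apply sum_nonneg
      intro P _
      apply sum_nonneg
      intro φ _
      split_ifs
      · positivity
      · exact le_rfl
    have hnn2 : ∀ j : ℤ, 0 ≤ (K ^ (4 * Fintype.card κ ^ 2) * ∑ q : κ × κ, gz (c1 κ) (η q.1 - η' q.2 + j)) := by
      intro j
      apply mul_nonneg (by positivity)
      exact sum_nonneg fun q _ => gz_nonneg hc0 _
    refine le_trans ?_ (sum_le_sum_of_subset_of_nonneg
      (filter_subset (fun j => ¬ Disjoint (vs η) (vt η' j)) (Ioo (-(H : ℤ)) H)) fun j _ _ => mul_nonneg (hnn j) (hnn2 j))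
    apply sum_le_sum
    intro j hj
    apply mul_le_mul
    · exact hpat η' j (mem_filter.1 hj).2
    · exact PG_sq_le h0 η η' j K hK (Gd_le hF hη) (Gd_le hF hη')
    · positivity
    · exact hnn j
  refine h1.trans ?_
  have h2 : ∀ q : κ × κ, ∀ P ∈ 𝓟, ∀ φ : κ → κ,
      ∑ η' ∈ Gd F a H K, ∑ j ∈ Ioo (-(H : ℤ)) H, (if ∀ l ∈ P, η' l - j = η (φ l) then L ^ P.card else 0) *
        gz (c1 κ) (η q.1 - η' q.2 + j) ≤ (2 * K + 9 * mC (c1 κ)) * (L ^ F.card * (H : ℝ) ^ (Fᶜ).card) := by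
    intro q P hP φ
    rw [h𝓟, mem_filter] at hP
    refine le_trans ?_ (pat F hF a H hH ha K hK η hη L hL hLH P hP.2 φ q.1 q.2)
    rw [sum_comm, mul_sum]
    apply sum_le_sum
    intro j _
    rw [mul_sum]
    have h3 : ∀ η' ∈ Gd F a H K, (if ∀ l ∈ P, η' l - j = η (φ l) then L ^ P.card else 0) * gz (c1 κ) (η q.1 - η' q.2 + j) =
        if ∀ l ∈ P, η' l - j = η (φ l) then L ^ P.card * gz (c1 κ) (η q.1 - η' q.2 + j) else 0 := by
      intro η' _
      split_ifs
      · rfl
      · rw [zero_mul]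
    rw [sum_congr rfl h3, ← sum_filter]
    apply sum_le_sum_of_subset_of_nonneg
    · intro η' hη'
      rw [mem_filter, mem_Gd] at hη'
      rw [mem_Om]
      exact ⟨hη'.1.1, hη'.2⟩
    · intro η' _ _
      exact mul_nonneg (by positivity) (gz_nonneg hc0 _)
  have h3 : ∑ η' ∈ Gd F a H K, ∑ j ∈ Ioo (-(H : ℤ)) H,
        (∑ P ∈ 𝓟, ∑ φ : κ → κ, if ∀ l ∈ P, η' l - j = η (φ l) then L ^ P.card else 0) *
          (K ^ (4 * Fintype.card κ ^ 2) * ∑ q : κ × κ, gz (c1 κ) (η q.1 - η' q.2 + j)) =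
      K ^ (4 * Fintype.card κ ^ 2) * ∑ q : κ × κ, ∑ P ∈ 𝓟, ∑ φ : κ → κ,
        ∑ η' ∈ Gd F a H K, ∑ j ∈ Ioo (-(H : ℤ)) H, (if ∀ l ∈ P, η' l - j = η (φ l) then L ^ P.card else 0) *
        gz (c1 κ) (η q.1 - η' q.2 + j) := by
    have e1 : ∀ q : κ × κ, ∑ P ∈ 𝓟, ∑ φ : κ → κ, ∑ η' ∈ Gd F a H K, ∑ j ∈ Ioo (-(H : ℤ)) H,
        (if ∀ l ∈ P, η' l - j = η (φ l) then L ^ P.card else 0) * gz (c1 κ) (η q.1 - η' q.2 + j) =
        ∑ η' ∈ Gd F a H K, ∑ j ∈ Ioo (-(H : ℤ)) H,
          (∑ P ∈ 𝓟, ∑ φ : κ → κ, if ∀ l ∈ P, η' l - j = η (φ l) then L ^ P.card else 0) * gz (c1 κ) (η q.1 - η' q.2 + j) := by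
      intro q
      calc _ = ∑ P ∈ 𝓟, ∑ η' ∈ Gd F a H K, ∑ φ : κ → κ, ∑ j ∈ Ioo (-(H : ℤ)) H,
            (if ∀ l ∈ P, η' l - j = η (φ l) then L ^ P.card else 0) * gz (c1 κ) (η q.1 - η' q.2 + j) :=
            sum_congr rfl fun P _ => sum_comm
        _ = ∑ η' ∈ Gd F a H K, ∑ P ∈ 𝓟, ∑ φ : κ → κ, ∑ j ∈ Ioo (-(H : ℤ)) H,
            (if ∀ l ∈ P, η' l - j = η (φ l) then L ^ P.card else 0) * gz (c1 κ) (η q.1 - η' q.2 + j) := sum_comm
        _ = ∑ η' ∈ Gd F a H K, ∑ j ∈ Ioo (-(H : ℤ)) H, ∑ P ∈ 𝓟, ∑ φ : κ → κ,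
            (if ∀ l ∈ P, η' l - j = η (φ l) then L ^ P.card else 0) * gz (c1 κ) (η q.1 - η' q.2 + j) := by
            apply sum_congr rfl
            intro η' _
            rw [sum_comm]
            rw [sum_comm]
            rw [sum_comm (s := Ioo (-(H : ℤ)) H)]
            apply sum_congr rfl
            intro P _
            exact sum_comm
        _ = _ := by
            apply sum_congr rfl
            intro η' _
            apply sum_congr rfl
            intro j _
            rw [sum_mul]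
            apply sum_congr rfl
            intro P _
            rw [sum_mul]
    calc _ = ∑ η' ∈ Gd F a H K, ∑ j ∈ Ioo (-(H : ℤ)) H, ∑ q : κ × κ, K ^ (4 * Fintype.card κ ^ 2) *
          ((∑ P ∈ 𝓟, ∑ φ : κ → κ, if ∀ l ∈ P, η' l - j = η (φ l) then L ^ P.card else 0) * gz (c1 κ) (η q.1 - η' q.2 + j)) := by
          apply sum_congr rfl
          intro η' _
          apply sum_congr rfl
          intro j _
          rw [← mul_sum, ← mul_sum]
          ring
      _ = ∑ η' ∈ Gd F a H K, ∑ q : κ × κ, ∑ j ∈ Ioo (-(H : ℤ)) H, K ^ (4 * Fintype.card κ ^ 2) *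
          ((∑ P ∈ 𝓟, ∑ φ : κ → κ, if ∀ l ∈ P, η' l - j = η (φ l) then L ^ P.card else 0) * gz (c1 κ) (η q.1 - η' q.2 + j)) :=
          sum_congr rfl fun η' _ => sum_comm
      _ = ∑ q : κ × κ, ∑ η' ∈ Gd F a H K, ∑ j ∈ Ioo (-(H : ℤ)) H, K ^ (4 * Fintype.card κ ^ 2) *
          ((∑ P ∈ 𝓟, ∑ φ : κ → κ, if ∀ l ∈ P, η' l - j = η (φ l) then L ^ P.card else 0) * gz (c1 κ) (η q.1 - η' q.2 + j)) :=
          sum_comm
      _ = ∑ q : κ × κ, K ^ (4 * Fintype.card κ ^ 2) * ∑ η' ∈ Gd F a H K, ∑ j ∈ Ioo (-(H : ℤ)) H,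
          (∑ P ∈ 𝓟, ∑ φ : κ → κ, if ∀ l ∈ P, η' l - j = η (φ l) then L ^ P.card else 0) * gz (c1 κ) (η q.1 - η' q.2 + j) := by
          apply sum_congr rfl
          intro q _
          rw [mul_sum]
          apply sum_congr rfl
          intro η' _
          rw [mul_sum]
      _ = _ := by
          rw [← mul_sum]
          congr 1
          exact (sum_congr rfl fun q _ => e1 q).symm
  rw [h3, mul_assoc, mul_assoc]
  apply mul_le_mul_of_nonneg_left _ (by positivity)
  have hR0 : 0 ≤ (2 * K + 9 * mC (c1 κ)) * (L ^ F.card * (H : ℝ) ^ (Fᶜ).card) := by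
    have := mC_ge (c1 κ)
    positivity
  set R := (2 * K + 9 * mC (c1 κ)) * (L ^ F.card * (H : ℝ) ^ (Fᶜ).card) with hR
  calc ∑ q : κ × κ, ∑ P ∈ 𝓟, ∑ φ : κ → κ, ∑ η' ∈ Gd F a H K, ∑ j ∈ Ioo (-(H : ℤ)) H,
        (if ∀ l ∈ P, η' l - j = η (φ l) then L ^ P.card else 0) * gz (c1 κ) (η q.1 - η' q.2 + j) ≤
        ∑ _q : κ × κ, ∑ _P ∈ 𝓟, ∑ _φ : κ → κ, R := by
        apply sum_le_sum
        intro q _
        apply sum_le_sum
        intro P hP
        apply sum_le_sum
        intro φ _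
        exact h2 q P hP φ
    _ = (Fintype.card κ : ℝ) ^ 2 * ((𝓟.card : ℝ) * ((Fintype.card κ : ℝ) ^ Fintype.card κ * R)) := by
        simp only [sum_const, nsmul_eq_mul, card_univ, Fintype.card_prod, Fintype.card_fun]
        push_cast
        ring
    _ ≤ (Fintype.card κ : ℝ) ^ 2 * (2 ^ Fintype.card κ * ((Fintype.card κ : ℝ) ^ Fintype.card κ * R)) := by
        apply mul_le_mul_of_nonneg_left _ (by positivity)
        apply mul_le_mul_of_nonneg_right _ (by positivity)
        have h5 : 𝓟.card ≤ 2 ^ Fintype.card κ := by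
          rw [h𝓟]
          refine (card_filter_le _ _).trans ?_
          rw [card_univ, Fintype.card_finset]
        exact_mod_cast h5
    _ = _ := by ring

end

end Pool.Agent.Y842.JC
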