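import Pool.Agent.Y842.JC.Sec
import Pool.Agent.Y842.JC.Avg3

set_option autoImplicit false

/-! The correlations of the weights, and the windows. -/

namespace Pool.Agent.Y842.JC
open Finset
open Pool.Agent.H807R2.Dav (ee norm_ee ee_add ee_int ee_pow ee_zero)
open Pool.Agent.TH823.MRS (ExpoSmall win_l1 win_eq)
open Pool.Agent.H373R2.T7 (exI)

lemma Lz_log {m : ℤ} {X : ℝ} (hX : 1 ≤ X) (h : (m : ℝ) ≤ X) : Lz m ≤ Real.log X := by
  unfold Lz
  rcases Nat.eq_zero_or_pos m.toNat with h0 | h0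
  · rw [h0, ArithmeticFunction.map_zero]
    exact Real.log_nonneg hX
  · refine ArithmeticFunction.vonMangoldt_le_log.trans ?_
    apply Real.log_le_log (by exact_mod_cast h0)
    have h2 : ((m.toNat : ℕ) : ℤ) = m := Int.toNat_of_nonneg (by omega)
    have h3 : ((m.toNat : ℕ) : ℝ) = m := by exact_mod_cast h2
    rw [h3]
    exact h

/-- the correlations are symmetric -/
lemma cor_symm (N : ℕ) (u v : ℤ → ℂ) (hu : ∀ n : ℤ, ¬ (0 < n ∧ n ≤ (N : ℤ)) → u n = 0)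
    (hv : ∀ n : ℤ, ¬ (0 < n ∧ n ≤ (N : ℤ)) → v n = 0) (j : ℤ) : ‖cor N u v j‖ = ‖cor N v u (-j)‖ := by
  have h1 : cor N u v j = (starRingEnd ℂ) (cor N v u (-j)) := by
    unfold cor
    rw [map_sum]
    have h2 : ∑ n ∈ Ioc (0 : ℤ) N, u n * (starRingEnd ℂ) (v (n - j)) =
        ∑ n ∈ (Ioc (0 : ℤ) N).filter (fun n => 0 < n - j ∧ n - j ≤ (N : ℤ)), u n * (starRingEnd ℂ) (v (n - j)) := by
      rw [sum_filter]
      apply sum_congr rfl
      intro n _
      split_ifs with h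
      · rfl
      · rw [hv _ h, map_zero, mul_zero]
    have h3 : ∑ n ∈ Ioc (0 : ℤ) N, (starRingEnd ℂ) (v n * (starRingEnd ℂ) (u (n - -j))) =
        ∑ n ∈ (Ioc (0 : ℤ) N).filter (fun n => 0 < n + j ∧ n + j ≤ (N : ℤ)), (starRingEnd ℂ) (v n * (starRingEnd ℂ) (u (n - -j))) := by
      rw [sum_filter]
      apply sum_congr rfl
      intro n _
      split_ifs with h
      · rfl
      · rw [sub_neg_eq_add, hu _ h, map_zero, mul_zero, map_zero]
    rw [h2, h3]
    apply sum_nbij' (fun n => n - j) (fun n => n + j)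
    · intro n hn
      rw [mem_filter, mem_Ioc] at hn ⊢
      omega
    · intro n hn
      rw [mem_filter, mem_Ioc] at hn ⊢
      omega
    · intro n _
      ring
    · intro n _
      ring
    · intro n _
      rw [map_mul, Complex.conj_conj, sub_neg_eq_add, sub_add_cancel, mul_comm]
  rw [h1, RCLike.norm_conj]

section
variable {κ : Type*} [Fintype κ] [DecidableEq κ]

/-- the weights -/
noncomputable def uu (b : ℤ → ℂ) (η : κ → ℤ) (X : ℕ) (n : ℤ) : ℂ :=
  if 0 < n ∧ n ≤ (X : ℤ) then b n * ((∏ i, Lz (n + η i) : ℝ) : ℂ) else 0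

omit [DecidableEq κ] in
lemma uu_norm (b : ℤ → ℂ) (hb : ∀ n, ‖b n‖ ≤ 1) (η : κ → ℤ) (X : ℕ) (n : ℤ) :
    ‖uu b η X n‖ ≤ ∏ i, Lz (n + η i) := by
  have h0 : 0 ≤ ∏ i, Lz (n + η i) := prod_nonneg fun i _ => Lz_nonneg _
  unfold uu
  split_ifs
  · rw [norm_mul, Complex.norm_real, Real.norm_of_nonneg h0]
    exact mul_le_of_le_one_left h0 (hb n)
  · rw [norm_zero]
    exact h0

omit [DecidableEq κ] in
lemma uu_supp (b : ℤ → ℂ) (η : κ → ℤ) (X N : ℕ) (hX : X ≤ N) (n : ℤ) (hn : ¬ (0 < n ∧ n ≤ (N : ℤ))) : uu b η X n = 0 := by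
  unfold uu
  rw [if_neg]
  intro h
  apply hn
  omega

omit [DecidableEq κ] in
lemma prod_vs (η : κ → ℤ) (hη : Function.Injective η) (n : ℤ) : ∏ i, Lz (n + η i) = ∏ t ∈ vs η, Lz (n + t) := by
  unfold vs
  rw [prod_image fun x _ y _ h => hη h]

omit [DecidableEq κ] in
lemma prod_vt (η : κ → ℤ) (hη : Function.Injective η) (j n : ℤ) : ∏ i, Lz (n - j + η i) = ∏ t ∈ vt η j, Lz (n + t) := by
  unfold vt
  rw [prod_image]
  · apply prod_congr rfl
    intro i _
    congr 1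
    ring
  · intro x _ y _ h
    simp only at h
    exact hη (by omega)

omit [DecidableEq κ] in
lemma card_vs (η : κ → ℤ) : (vs η).card ≤ Fintype.card κ := by
  unfold vs
  exact card_image_le

omit [DecidableEq κ] in
lemma card_vt (η : κ → ℤ) (j : ℤ) : (vt η j).card ≤ Fintype.card κ := by
  unfold vt
  exact card_image_le

omit [DecidableEq κ] in
/-- the bound for one correlation -/
lemma cor_le (N H X : ℕ) (hN : 1 ≤ N) (hHN : H ≤ N) (b b' : ℤ → ℂ) (hb : ∀ n, ‖b n‖ ≤ 1) (hb' : ∀ n, ‖b' n‖ ≤ 1)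
    (η η' : κ → ℤ) (hη : Function.Injective η) (hη' : Function.Injective η') (hH : ∀ i, |η i| ≤ H)
    (j : ℤ) :
    ‖cor N (uu b η X) (uu b' η' X) j‖ ≤
      Real.log (6 * N) ^ (vs η ∩ vt η' j).card * ∑ n ∈ Ioc (0 : ℤ) N, ∏ t ∈ vs η ∪ vt η' j, Lz (n + t) := by
  unfold cor
  refine (norm_sum_le _ _).trans ?_
  rw [mul_sum]
  apply sum_le_sum
  intro n hn
  rw [mem_Ioc] at hn
  rw [norm_mul, RCLike.norm_conj]
  have h1 := uu_norm b hb η X n
  have h2 := uu_norm b' hb' η' X (n - j)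
  rw [prod_vs η hη] at h1
  rw [prod_vt η' hη'] at h2
  refine (mul_le_mul h1 h2 (norm_nonneg _) (prod_nonneg fun t _ => Lz_nonneg _)).trans ?_
  rw [← prod_union_inter, mul_comm]
  apply mul_le_mul_of_nonneg_right _ (prod_nonneg fun t _ => Lz_nonneg _)
  rw [← prod_const]
  apply prod_le_prod (fun t _ => Lz_nonneg _)
  intro t ht
  rw [mem_inter] at ht
  have ht1 := ht.1
  unfold vs at ht1
  rw [mem_image] at ht1
  obtain ⟨i, _, rfl⟩ := ht1
  have hN1 : (1 : ℝ) ≤ N := by exact_mod_cast hN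
  apply Lz_log (by linarith)
  have h3 := (abs_le.1 (hH i)).2
  have h4 : n + η i ≤ 6 * N := by omega
  exact_mod_cast h4

end

/-- the windows -/
lemma win_bound (h : ℕ → ℂ) (hE : ExpoSmall h) (ε : ℝ) (hε : 0 < ε) :
    ∃ H₀ N₀ : ℕ, ∀ N : ℕ, N₀ ≤ N → ∀ H : ℕ, H₀ ≤ H → H ≤ N → ∀ B : ℕ, B ≤ N → ∀ t : ℕ,
      ∑ z ∈ range (N + 2 * H), ‖LW H (4 * H) (fun n => exI h (n + (B : ℤ))) z t‖ ≤ ε * H * N := by
  obtain ⟨W₀, X₀, hX⟩ := win_l1 h hE (ε / 4) (by positivity)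
  refine ⟨W₀, X₀, fun N hN H hH hHN B hB t => ?_⟩
  set α : ℝ := -((t : ℝ) / (4 * H : ℕ)) with hα
  have h1 := hX (2 * N) (by omega) (2 * H) (by omega) (by omega) α
  have h2 : ∀ z ∈ range (N + 2 * H), ‖LW H (4 * H) (fun n => exI h (n + (B : ℤ))) z t‖ =
      ‖∑ n ∈ Icc 1 (3 * (2 * N)), if n ≤ (z + B) ∧ (z + B) < n + 2 * H then h n * ee ((n : ℝ) * α) else 0‖ := by
    intro z hz
    rw [mem_range] at hz
    rw [← win_eq h (2 * N) (2 * H) (z + B) (by omega) α]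
    have h3 : LW H (4 * H) (fun n => exI h (n + (B : ℤ))) z t =
        ee (-((B : ℝ) * α)) * ∑ n ∈ Ioc (((z + B : ℕ) : ℤ) - ((2 * H : ℕ) : ℤ)) ((z + B : ℕ) : ℤ), exI h n * ee ((n : ℝ) * α) := by
      unfold LW
      rw [mul_sum]
      apply sum_nbij' (fun n => n + (B : ℤ)) (fun n => n - (B : ℤ))
      · intro n hn
        rw [mem_Ioc] at hn ⊢
        push_cast
        omega
      · intro n hn
        rw [mem_Ioc] at hn ⊢
        push_cast at hn
        omega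
      · intro n _
        ring
      · intro n _
        ring
      · intro n _
        simp only
        rw [mul_left_comm, ← ee_add]
        congr 2
        rw [hα]
        push_cast
        ring
    rw [h3, norm_mul, norm_ee, one_mul]
  rw [sum_congr rfl h2]
  have h3 : ∑ z ∈ range (N + 2 * H), ‖∑ n ∈ Icc 1 (3 * (2 * N)), if n ≤ (z + B) ∧ (z + B) < n + 2 * H then h n * ee ((n : ℝ) * α) else 0‖ ≤
      ∑ z ∈ range (3 * (2 * N) + 1), ‖∑ n ∈ Icc 1 (3 * (2 * N)), if n ≤ z ∧ z < n + 2 * H then h n * ee ((n : ℝ) * α) else 0‖ := by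
    rw [range_eq_Ico, sum_Ico_add' (fun z => ‖∑ n ∈ Icc 1 (3 * (2 * N)), if n ≤ z ∧ z < n + 2 * H then h n * ee ((n : ℝ) * α) else 0‖)
      0 (N + 2 * H) B, range_eq_Ico]
    apply sum_le_sum_of_subset_of_nonneg
    · intro z hz
      rw [mem_Ico] at hz ⊢
      omega
    · intro _ _ _
      exact norm_nonneg _
  refine h3.trans (h1.trans (le_of_eq ?_))
  push_cast
  ring

end Pool.Agent.Y842.JC
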