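import Pool.Agent.Y842.JC.Cor

set_option autoImplicit false

/-! The second moment for tuples of shifts of the von Mangoldt function. -/

namespace Pool.Agent.Y842.JC
open Finset
open Pool.Agent.TH823.MRS (ExpoSmall)
open Pool.Agent.H373R2.T7 (exI)

section
variable {κ : Type*} [Fintype κ] [DecidableEq κ]

/-- the constant of the overlapping terms -/
noncomputable def E3 (κ : Type*) [Fintype κ] (K : ℝ) : ℝ :=
  K ^ (4 * Fintype.card κ ^ 2) * ((Fintype.card κ : ℝ) ^ 2 * (2 ^ Fintype.card κ * (Fintype.card κ : ℝ) ^ Fintype.card κ)) *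
    (2 * K + 9 * mC (c1 κ))

/-- the constant of the off-diagonal terms -/
noncomputable def E1 (κ : Type*) [Fintype κ] (K : ℝ) : ℝ :=
  K ^ (4 * Fintype.card κ ^ 2) * ((Fintype.card κ : ℝ) ^ 2 * (3 * mC (c1 κ)))

lemma abs_vt {F : Finset κ} {a : κ → ℤ} {H N : ℕ} (hHN : H ≤ N) (ha : ∀ i ∈ F, |a i| ≤ H) {η η' : κ → ℤ}
    (hη : η ∈ Bx F a H) (hη' : η' ∈ Bx F a H) {j : ℤ} (hj : j ∈ Ioo (-(H : ℤ)) H) (t : ℤ) (ht : t ∈ vs η ∪ vt η' j) :
    |t| ≤ 4 * N := by
  rw [mem_Ioo] at hj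
  rw [mem_union] at ht
  rcases ht with ht | ht
  · unfold vs at ht
    rw [mem_image] at ht
    obtain ⟨i, _, rfl⟩ := ht
    have := abs_le.1 (abs_Bx ha hη i)
    rw [abs_le]
    omega
  · unfold vt at ht
    rw [mem_image] at ht
    obtain ⟨i, _, rfl⟩ := ht
    have := abs_le.1 (abs_Bx ha hη' i)
    rw [abs_le]
    omega

theorem sm_cut (h0 : 0 < Fintype.card κ) (F : Finset κ) (hF : F.Nonempty) (a : κ → ℤ) (H N : ℕ) (hH : 1 ≤ H) (hHN : H ≤ N)
    (ha : ∀ i ∈ F, |a i| ≤ H) (K : ℝ) (hK : 1 ≤ K) (Cs : ℝ) (hCs : 1 ≤ Cs)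
    (hs : ∀ T : Finset ℤ, T.card ≤ 2 * Fintype.card κ → (∀ t ∈ T, |t| ≤ 4 * N) →
      ∑ n ∈ Ioc (0 : ℤ) N, ∏ t ∈ T, Lz (n + t) ≤ Cs * N * PG T)
    (hL1 : 1 ≤ Real.log (6 * N)) (hLH : Real.log (6 * N) ≤ H) (b : (κ → ℤ) → ℤ → ℂ) (hb : ∀ η n, ‖b η n‖ ≤ 1)
    (X : ℕ) (hX : X ≤ N) (Fn : ℤ → ℂ) (hFn : ∀ n, ‖Fn n‖ ≤ 1) (l : ℝ)
    (hl : ∀ t, ∑ z ∈ range (N + 2 * H), ‖LW H (4 * H) Fn z t‖ ≤ l) :
    (H : ℝ) ^ 2 * ∑ η ∈ Gd F a H K, ∑ e ∈ Icc 1 H, ‖∑ n ∈ Ioc (0 : ℤ) N, uu (b η) η X n * Fn (n + (e : ℤ))‖ ^ 2 ≤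
      2 * H * ((N + 2 * H : ℕ) : ℝ) * (H * (Cs * N * (E3 κ K * (Real.log (6 * N) ^ F.card * (H : ℝ) ^ (Fᶜ).card)))) +
        Real.sqrt (2 * H * l * (2 * H * ((N + 2 * H : ℕ) : ℝ))) *
          Real.sqrt ((H : ℝ) ^ 2 * ((Cs * N) ^ 2 * (((H : ℝ) ^ (Fᶜ).card) ^ 2 * (E1 κ K * H)))) := by
  classical
  have hN1 : 1 ≤ N := hH.trans hHN
  have hK0 : 0 ≤ K := by linarith
  have hmC : 1 ≤ mC (c1 κ) := mC_ge _
  have hE3 : 0 ≤ E3 κ K := by unfold E3; positivity
  have hL0 : 0 ≤ Real.log (6 * N) := by linarith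
  have hcor : ∀ η ∈ Gd F a H K, ∀ η' ∈ Gd F a H K, ∀ j ∈ Ioo (-(H : ℤ)) H,
      ‖cor N (uu (b η) η X) (uu (b η') η' X) j‖ ≤
        Cs * N * (Real.log (6 * N) ^ (vs η ∩ vt η' j).card * PG (vs η ∪ vt η' j)) := by
    intro η hη η' hη' j hj
    have h1 := cor_le N H X hN1 hHN (b η) (b η') (hb η) (hb η') η η' (mem_Gd.1 hη).2.1 (mem_Gd.1 hη').2.1
      (abs_Bx ha (mem_Gd.1 hη).1) j
    refine h1.trans ?_
    have h2 := hs (vs η ∪ vt η' j) (by
      have := card_union_le (vs η) (vt η' j)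
      have := card_vs η
      have := card_vt η' j
      omega) (abs_vt hHN ha (mem_Gd.1 hη).1 (mem_Gd.1 hη').1 hj)
    refine (mul_le_mul_of_nonneg_left h2 (by positivity)).trans (le_of_eq ?_)
    ring
  have hPG2 : ∀ T : Finset ℤ, PG T ≤ PG T ^ 2 := fun T => le_self_pow₀ (one_le_PG T) (by norm_num)
  have hrow : ∀ η ∈ Gd F a H K, ∑ η' ∈ Gd F a H K, ∑ j ∈ (Ioo (-(H : ℤ)) H).filter (fun j => ¬ Disjoint (vs η) (vt η' j)),
      ‖cor N (uu (b η) η X) (uu (b η') η' X) j‖ ≤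
        Cs * N * (E3 κ K * (Real.log (6 * N) ^ F.card * (H : ℝ) ^ (Fᶜ).card)) := by
    intro η hη
    have h1 := av2 h0 F hF a H hH ha K hK η hη (Real.log (6 * N)) hL1 hLH
    have h2 := mul_le_mul_of_nonneg_left h1 (by positivity : 0 ≤ Cs * N)
    refine le_trans ?_ (h2.trans (le_of_eq (by unfold E3; ring)))
    rw [mul_sum]
    apply sum_le_sum
    intro η' hη'
    rw [mul_sum]
    have h3 : (Ioo (-(H : ℤ)) H).filter (fun j => ¬ Disjoint (vs η) (vt η' j)) =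
        (Ioo (-(H : ℤ)) H).filter (fun j => ¬ Disjoint (vs η) (vt η' j)) := rfl
    refine (sum_le_sum (g := fun j => Cs * N * (Real.log (6 * N) ^ (vs η ∩ vt η' j).card * PG (vs η ∪ vt η' j) ^ 2)) ?_).trans
      (le_of_eq (sum_congr (by ext x; simp only [mem_filter]) fun _ _ => rfl))
    intro j hj
    refine (hcor η hη η' hη' j (mem_filter.1 hj).1).trans ?_
    apply mul_le_mul_of_nonneg_left _ (by positivity)
    exact mul_le_mul_of_nonneg_left (hPG2 _) (by positivity)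
  have hdis : ∀ η η' : κ → ℤ, ∀ j : ℤ, Disjoint (vs η) (vt η' j) ↔ Disjoint (vs η') (vt η (-j)) := by
    have h1 : ∀ η η' : κ → ℤ, ∀ j : ℤ, Disjoint (vs η) (vt η' j) → Disjoint (vs η') (vt η (-j)) := by
      intro η η' j h
      rw [disjoint_left] at h ⊢
      intro t ht ht'
      unfold vs at ht
      unfold vt at ht'
      rw [mem_image] at ht ht'
      obtain ⟨i, _, rfl⟩ := ht
      obtain ⟨i', _, hi'⟩ := ht'
      apply h (a := η i')
      · unfold vs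
        exact mem_image_of_mem _ (mem_univ _)
      · unfold vt
        rw [mem_image]
        exact ⟨i, mem_univ _, by omega⟩
    intro η η' j
    constructor
    · exact h1 η η' j
    · intro h
      have := h1 η' η (-j) h
      rwa [neg_neg] at this
  have hcol : ∀ η' ∈ Gd F a H K, ∑ η ∈ Gd F a H K, ∑ j ∈ (Ioo (-(H : ℤ)) H).filter (fun j => ¬ Disjoint (vs η) (vt η' j)),
      ‖cor N (uu (b η) η X) (uu (b η') η' X) j‖ ≤
        Cs * N * (E3 κ K * (Real.log (6 * N) ^ F.card * (H : ℝ) ^ (Fᶜ).card)) := by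
    intro η' hη'
    refine le_trans (le_of_eq ?_) (hrow η' hη')
    apply sum_congr rfl
    intro η _
    apply sum_nbij' (fun j => -j) (fun j => -j)
    · intro j hj
      rw [mem_filter, mem_Ioo] at hj ⊢
      refine ⟨by omega, ?_⟩
      intro h
      exact hj.2 ((hdis η η' j).2 h)
    · intro j hj
      rw [mem_filter, mem_Ioo] at hj ⊢
      refine ⟨by omega, ?_⟩
      intro h
      exact hj.2 ((hdis η' η j).2 h)
    · intro j _
      ring
    · intro j _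
      ring
    · intro j _
      exact cor_symm N _ _ (uu_supp (b η) η X N hX) (uu_supp (b η') η' X N hX) j
  have hoff : ∑ η ∈ Gd F a H K, ∑ η' ∈ Gd F a H K, ∑ j ∈ (Ioo (-(H : ℤ)) H).filter (fun j => Disjoint (vs η) (vt η' j)),
      ‖cor N (uu (b η) η X) (uu (b η') η' X) j‖ ^ 2 ≤ (Cs * N) ^ 2 * (((H : ℝ) ^ (Fᶜ).card) ^ 2 * (E1 κ K * H)) := by
    have h1 : ∀ η ∈ Gd F a H K, ∀ η' ∈ Gd F a H K, ∑ j ∈ (Ioo (-(H : ℤ)) H).filter (fun j => Disjoint (vs η) (vt η' j)),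
        ‖cor N (uu (b η) η X) (uu (b η') η' X) j‖ ^ 2 ≤ (Cs * N) ^ 2 * (E1 κ K * H) := by
      intro η hη η' hη'
      have h2 := mul_le_mul_of_nonneg_left (av1 h0 F hF a H hH ha K hK η η' hη hη') (by positivity : 0 ≤ (Cs * N) ^ 2)
      refine le_trans ?_ (h2.trans (le_of_eq (by unfold E1; ring)))
      rw [mul_sum]
      refine le_trans ?_ (sum_le_sum_of_subset_of_nonneg
        (filter_subset (fun j => Disjoint (vs η) (vt η' j)) (Ioo (-(H : ℤ)) H)) fun j _ _ => by positivity)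
      apply sum_le_sum
      intro j hj
      rw [mem_filter] at hj
      have h3 := hcor η hη η' hη' j hj.1
      rw [disjoint_iff_inter_eq_empty.1 hj.2, card_empty, pow_zero, one_mul] at h3
      refine (pow_le_pow_left₀ (norm_nonneg _) h3 2).trans (le_of_eq ?_)
      ring
    refine (sum_le_sum fun η hη => sum_le_sum fun η' hη' => h1 η hη η' hη').trans ?_
    rw [sum_const, sum_const, nsmul_eq_mul, nsmul_eq_mul]
    have hcard : ((Gd F a H K).card : ℝ) ≤ (H : ℝ) ^ (Fᶜ).card := by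
      rw [← card_Bx F a H]
      have : (Gd F a H K).card ≤ (Bx F a H).card := card_le_card fun η hη => (mem_Gd.1 hη).1
      exact_mod_cast this
    have hnn : 0 ≤ (Cs * N) ^ 2 * (E1 κ K * H) := by
      have : 0 ≤ E1 κ K := by unfold E1; positivity
      positivity
    calc ((Gd F a H K).card : ℝ) * (((Gd F a H K).card : ℝ) * ((Cs * N) ^ 2 * (E1 κ K * H))) ≤
          (H : ℝ) ^ (Fᶜ).card * ((H : ℝ) ^ (Fᶜ).card * ((Cs * N) ^ 2 * (E1 κ K * H))) := by
          apply mul_le_mul hcard _ (mul_nonneg (Nat.cast_nonneg _) hnn) (by positivity)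
          exact mul_le_mul_of_nonneg_right hcard hnn
      _ = _ := by ring
  have hfin := second_moment (Gd F a H K) N H (N + 2 * H) hH le_rfl (fun η => uu (b η) η X)
    (fun η n hn => uu_supp (b η) η X N hX n hn) Fn hFn (fun η η' j => Disjoint (vs η) (vt η' j))
    (Cs * N * (E3 κ K * (Real.log (6 * N) ^ F.card * (H : ℝ) ^ (Fᶜ).card)))
    ((Cs * N) ^ 2 * (((H : ℝ) ^ (Fᶜ).card) ^ 2 * (E1 κ K * H))) l (by positivity)
    (by
      intro η hη
      refine le_trans (le_of_eq ?_) (hrow η hη)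
      apply sum_congr rfl
      intro η' _
      exact sum_congr (by ext x; simp only [mem_filter]) fun _ _ => rfl)
    (by
      intro η' hη'
      refine le_trans (le_of_eq ?_) (hcol η' hη')
      apply sum_congr rfl
      intro η _
      exact sum_congr (by ext x; simp only [mem_filter]) fun _ _ => rfl)
    (by
      refine le_trans (le_of_eq ?_) hoff
      apply sum_congr rfl
      intro η _
      apply sum_congr rfl
      intro η' _
      exact sum_congr (by ext x; simp only [mem_filter]) fun _ _ => rfl)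
    hl
  exact hfin

end

end Pool.Agent.Y842.JC
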