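import Pool.Agent.Y842.JC.Main
import Pool.Agent.TH823.MRS.Circ3

set_option autoImplicit false

/-! Almost all shifts in very short intervals: the theorem for a weight with small exponential sums. -/

namespace Pool.Agent.Y842.JC
open Finset
open Pool.Agent.TH823.MRS (ExpoSmall exI_norm1)
open Pool.Agent.H373R2.T7 (exI)

section
variable {κ : Type} [Fintype κ] [DecidableEq κ]

open Classical in
theorem main (h : ℕ → ℂ) (hb : ∀ n, ‖h n‖ ≤ 1) (hE : ExpoSmall h) (F : Finset κ) (hF : F.Nonempty)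
    (D : ℕ) (ε : ℝ) (hε : 0 < ε) :
    ∃ C : ℝ, ∃ N₀ : ℕ, ∀ N : ℕ, N₀ ≤ N → ∀ H : ℕ, C * Real.log N ^ F.card ≤ H → H ≤ N → ∀ a : κ → ℤ,
      (∀ i ∈ F, |a i| ≤ H) → (∀ i ∈ F, ∀ l ∈ F, a i = a l → i = l) → (∀ i ∈ F, ∀ l ∈ F, |a i - a l| ≤ D) →
      ∀ B : ℕ, B ≤ N → ∀ b : (κ → ℤ) → ℤ → ℂ, (∀ η n, ‖b η n‖ ≤ 1) →
      ((((Bx F a H) ×ˢ (Icc 1 H)).filter (fun x : (κ → ℤ) × ℕ => ∃ X : ℕ, X ≤ N ∧
        ε * N < ‖∑ n ∈ Ioc (0 : ℤ) X, b x.1 n * ((∏ i, Lz (n + x.1 i) : ℝ) : ℂ) *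
          exI h (n + (x.2 : ℤ) + (B : ℤ))‖)).card : ℝ) ≤ ε * (H : ℝ) ^ ((Fᶜ).card + 1) := by
  have h0 : 0 < Fintype.card κ := by
    obtain ⟨x, _⟩ := hF
    exact Fintype.card_pos_iff.2 ⟨x⟩
  set c : ℕ := Fintype.card κ with hc
  obtain ⟨Cs, hCs, N1, hs⟩ := sieve (2 * c) (by omega)
  have hc0 : 0 ≤ c1 κ := c1_nonneg
  have hmC : 1 ≤ mC (c1 κ) := mC_ge _
  set K0 : ℝ := ∑ d ∈ Icc (-(2 * D : ℤ)) (2 * D), gz (c1 κ) d with hK0
  have hK00 : 0 ≤ K0 := sum_nonneg fun d _ => gz_nonneg hc0 d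
  set K : ℝ := K0 + 1 + 16 * (c : ℝ) ^ 4 * mC (c1 κ) / ε with hK
  have hKt : 0 ≤ 16 * (c : ℝ) ^ 4 * mC (c1 κ) / ε := by positivity
  have hK1 : 1 ≤ K := by linarith
  have hKK0 : K0 < K := by linarith
  have hKbig : (c : ℝ) ^ 4 * (4 * mC (c1 κ)) / K ≤ ε / 4 := by
    rw [div_le_iff₀ (by linarith)]
    have h1 : ε / 4 * (16 * (c : ℝ) ^ 4 * mC (c1 κ) / ε) = (c : ℝ) ^ 4 * (4 * mC (c1 κ)) := by
      field_simp
      ring
    have h2 : ε / 4 * (16 * (c : ℝ) ^ 4 * mC (c1 κ) / ε) ≤ ε / 4 * K := mul_le_mul_of_nonneg_left (by linarith) (by positivity)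
    linarith
  have hE3 : 0 ≤ E3 κ K := by unfold E3; positivity
  have hE1 : 0 ≤ E1 κ K := by unfold E1; positivity
  set K2 : ℝ := K ^ c ^ 2 with hK2
  have hK21 : 1 ≤ K2 := one_le_pow₀ hK1
  obtain ⟨R, hR⟩ := exists_nat_ge (4 * Cs * K2 / ε + 2)
  have hR2r : (2 : ℝ) ≤ R := by
    have : 0 ≤ 4 * Cs * K2 / ε := by positivity
    linarith
  have hR2 : 2 ≤ R := by exact_mod_cast hR2r
  set P : ℝ := (R : ℝ) + 1 with hP
  have hP1 : 1 ≤ P := by rw [hP]; linarith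
  set δ : ℝ := (ε ^ 3 / (16 * P * Cs)) ^ 2 / (12 * (E1 κ K + 1)) with hδ
  have hδ0 : 0 < δ := by positivity
  obtain ⟨H1, N2, hwin⟩ := win_bound h hE δ hδ0
  set C0 : ℝ := P * (4 / ε ^ 2) * (6 * Cs * E3 κ K) * (4 / ε) + 1 with hC0
  have hC01 : 1 ≤ C0 := by
    have : 0 ≤ P * (4 / ε ^ 2) * (6 * Cs * E3 κ K) * (4 / ε) := by positivity
    rw [hC0]
    linarith
  obtain ⟨N3, hN3⟩ := exists_nat_ge (Real.exp (H1 + 4 * (c : ℝ) ^ 2 / ε + 1))
  refine ⟨2 ^ F.card * C0, N1 + N2 + N3 + R ^ 4 + 6, fun N hN H hCH hHN a ha hinj hdiam B hB b hb1 => ?_⟩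
  have hN6 : (6 : ℝ) ≤ N := by exact_mod_cast (by omega : 6 ≤ N)
  have hN0 : (0 : ℝ) < N := by linarith
  have hlog : H1 + 4 * (c : ℝ) ^ 2 / ε + 1 ≤ Real.log N := by
    rw [Real.le_log_iff_exp_le hN0]
    exact hN3.trans (by exact_mod_cast (by omega : N3 ≤ N))
  have hlogN0 : 0 ≤ Real.log N := Real.log_nonneg (by linarith)
  set L : ℝ := Real.log (6 * N) with hL
  have hLN : Real.log N ≤ L := Real.log_le_log hN0 (by linarith)
  have hL2 : L ≤ 2 * Real.log N := by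
    rw [hL, Real.log_mul (by norm_num) (by linarith)]
    have := Real.log_le_log (by norm_num) hN6
    linarith
  have hL1 : 1 ≤ L := by
    have h1 : (0 : ℝ) ≤ H1 := Nat.cast_nonneg _
    have h2 : 0 ≤ 4 * (c : ℝ) ^ 2 / ε := by positivity
    linarith
  have hf1 : 1 ≤ F.card := hF.card_pos
  have hLf : C0 * L ^ F.card ≤ H := by
    refine le_trans ?_ hCH
    have h1 : L ^ F.card ≤ (2 * Real.log N) ^ F.card := pow_le_pow_left₀ (by linarith) hL2 _
    calc C0 * L ^ F.card ≤ C0 * (2 * Real.log N) ^ F.card := mul_le_mul_of_nonneg_left h1 (by linarith)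
      _ = _ := by rw [mul_pow]; ring
  have hLfpos : 1 ≤ L ^ F.card := one_le_pow₀ hL1
  have hLLf : L ≤ L ^ F.card := le_self_pow₀ hL1 (by omega)
  have hLH : L ≤ H := by
    have h1 : 1 * L ^ F.card ≤ C0 * L ^ F.card := mul_le_mul_of_nonneg_right hC01 (by linarith)
    linarith
  have hHr : (1 : ℝ) ≤ H := hL1.trans hLH
  have hH1 : 1 ≤ H := by exact_mod_cast hHr
  have hH0 : (0 : ℝ) < H := by linarith
  have hHH1 : H1 ≤ H := by
    have h2 : 0 ≤ 4 * (c : ℝ) ^ 2 / ε := by positivity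
    have : (H1 : ℝ) ≤ H := by linarith
    exact_mod_cast this
  have hHc : (c : ℝ) ^ 2 / H ≤ ε / 4 := by
    rw [div_le_iff₀ hH0]
    have h1 : (0 : ℝ) ≤ H1 := Nat.cast_nonneg _
    have h2 : 4 * (c : ℝ) ^ 2 / ε ≤ H := by linarith
    rw [div_le_iff₀ hε] at h2
    linarith
  -- the bad tuples
  have hbadc := bad_count F a H hH1 ha hinj K0 K hK00 hKK0 (by
    intro p hp q hq i hi l hl
    have h1 := abs_le.1 (hdiam i hi l hl)
    have h2 := abs_le.1 (hdiam p hp q hq)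
    exact single_le_sum (f := fun d => gz (c1 κ) d) (fun d _ => gz_nonneg hc0 d)
      (by rw [mem_Icc]; omega))
  have hbad2 : (((Bx F a H) \ (Gd F a H K)).card : ℝ) ≤ ε / 2 * (H : ℝ) ^ (Fᶜ).card := by
    refine hbadc.trans ?_
    rw [card_Bx]
    apply mul_le_mul_of_nonneg_right _ (by positivity)
    linarith
  -- the sieve bounds
  have hsN : ∀ T : Finset ℤ, T.card ≤ 2 * Fintype.card κ → (∀ t ∈ T, |t| ≤ 4 * N) →
      ∑ n ∈ Ioc (0 : ℤ) N, ∏ t ∈ T, Lz (n + t) ≤ Cs * N * PG T := by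
    intro T hT ht
    have h1 := hs N (by omega) N (Nat.pow_le_pow_right (by omega) (by norm_num)) le_rfl 0 (by simp) T hT ht
    rw [zero_add] at h1
    exact h1
  -- the grid
  set Y : ℕ := N / R + 1 with hY
  have hNR4 : R ^ 4 ≤ N := by omega
  have hYr : (N : ℝ) / R ≤ Y := by
    have h1 : N < R * (N / R + 1) := Nat.lt_mul_div_succ N (by omega)
    rw [div_le_iff₀ (by linarith)]
    have h2 : (N : ℝ) ≤ ((R * (N / R + 1) : ℕ) : ℝ) := by exact_mod_cast h1.le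
    rw [hY]
    push_cast at h2 ⊢
    linarith
  have hY2 : (Y : ℝ) ≤ 2 * N / R := by
    have h1 : ((N / R : ℕ) : ℝ) ≤ (N : ℝ) / R := Nat.cast_div_le
    have h2 : (1 : ℝ) ≤ (N : ℝ) / R := by
      rw [le_div_iff₀ (by linarith)]
      have : R ≤ R ^ 4 := Nat.le_self_pow (by norm_num) R
      have : (R : ℝ) ≤ N := by exact_mod_cast this.trans hNR4
      linarith
    have h3 : (Y : ℝ) = ((N / R : ℕ) : ℝ) + 1 := by rw [hY]; push_cast; ring
    rw [h3]
    have h4 : 2 * (N : ℝ) / R = (N : ℝ) / R + (N : ℝ) / R := by ring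
    linarith
  have hYN : Y ≤ N := by
    have h1 : (Y : ℝ) ≤ N := by
      refine hY2.trans ?_
      rw [div_le_iff₀ (by linarith)]
      have h2 := mul_le_mul_of_nonneg_left hR2r hN0.le
      linarith
    exact_mod_cast h1
  have hY4 : N ^ 3 ≤ Y ^ 4 := by
    have h1 : ((N : ℝ) / R) ^ 4 ≤ (Y : ℝ) ^ 4 := pow_le_pow_left₀ (by positivity) hYr 4
    have h2 : (N : ℝ) ^ 3 ≤ ((N : ℝ) / R) ^ 4 := by
      rw [div_pow, le_div_iff₀ (by positivity)]
      have : ((R : ℝ)) ^ 4 ≤ N := by exact_mod_cast hNR4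
      calc (N : ℝ) ^ 3 * (R : ℝ) ^ 4 ≤ (N : ℝ) ^ 3 * N := mul_le_mul_of_nonneg_left this (by positivity)
        _ = _ := by ring
    exact_mod_cast h2.trans h1
  have hY0 : 0 < Y := Nat.succ_pos _
  -- the short sums
  have hshort : ∀ η ∈ Gd F a H K, ∀ x : ℕ, x ≤ N → ∑ n ∈ Ioc (x : ℤ) (x + Y), ∏ i, Lz (n + η i) ≤ ε / 2 * N := by
    intro η hη x hx
    have hinjη := (mem_Gd.1 hη).2.1
    have h1 := hs N (by omega) Y hY4 hYN x (by rw [Nat.abs_cast]; exact_mod_cast hx) (vs η) (by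
      have := card_vs η
      omega) (by
      intro t ht
      unfold vs at ht
      rw [mem_image] at ht
      obtain ⟨i, _, rfl⟩ := ht
      have := abs_Bx ha (mem_Gd.1 hη).1 i
      omega)
    have h2 : ∑ n ∈ Ioc (x : ℤ) (x + Y), ∏ i, Lz (n + η i) = ∑ n ∈ Ioc (x : ℤ) (x + Y), ∏ t ∈ vs η, Lz (n + t) :=
      sum_congr rfl fun n _ => prod_vs η hinjη n
    rw [h2]
    refine h1.trans ?_
    have h3 := PG_vs η K (fun i l => (gz2_le h0 _).trans (Gd_le hF hη i l))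
    have hPG0 : 0 ≤ PG (vs η) := zero_le_one.trans (one_le_PG _)
    calc Cs * Y * PG (vs η) ≤ Cs * (2 * N / R) * K2 := by
          apply mul_le_mul _ h3 hPG0 (by positivity)
          exact mul_le_mul_of_nonneg_left hY2 (by linarith)
      _ = (4 * Cs * K2 / ε) * (ε / 2 * N) / R := by field_simp; ring
      _ ≤ R * (ε / 2 * N) / R := by
          apply div_le_div_of_nonneg_right _ (by linarith)
          apply mul_le_mul_of_nonneg_right _ (by positivity)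
          linarith
      _ = ε / 2 * N := by field_simp
  -- the cuts
  set Fn : ℤ → ℂ := fun n => exI h (n + (B : ℤ)) with hFn
  have hFn1 : ∀ n, ‖Fn n‖ ≤ 1 := fun n => exI_norm1 h hb _
  have hl : ∀ t, ∑ z ∈ range (N + 2 * H), ‖LW H (4 * H) Fn z t‖ ≤ δ * H * N :=
    fun t => hwin N (by omega) H hHH1 hHN B hB t
  set Sr : ℕ → Finset ((κ → ℤ) × ℕ) := fun r => ((Gd F a H K) ×ˢ (Icc 1 H)).filter (fun x : (κ → ℤ) × ℕ =>
      ε / 2 * N < ‖∑ n ∈ Ioc (0 : ℤ) N, uu (b x.1) x.1 (min (r * Y) N) n * Fn (n + (x.2 : ℤ))‖) with hSr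
  have hSr1 : ∀ r ∈ range (R + 1), ((Sr r).card : ℝ) ≤ ε / (2 * P) * (H : ℝ) ^ ((Fᶜ).card + 1) := by
    intro r _
    have h1 := cheb h0 F hF a H N hH1 hHN ha K hK1 Cs hCs hsN hL1 hLH b hb1 (min (r * Y) N) (min_le_right _ _) Fn hFn1
      δ hδ0.le hl (ε / 2) (by positivity)
    refine h1.trans ?_
    apply mul_le_mul_of_nonneg_right _ (by positivity)
    have e1 : L ^ F.card / H ≤ 1 / C0 := by
      rw [div_le_div_iff₀ hH0 (by linarith)]
      linarith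
    have e2 : 1 / (ε / 2) ^ 2 * (6 * Cs * E3 κ K * (L ^ F.card / H)) ≤ ε / (4 * P) := by
      calc 1 / (ε / 2) ^ 2 * (6 * Cs * E3 κ K * (L ^ F.card / H)) ≤ 1 / (ε / 2) ^ 2 * (6 * Cs * E3 κ K * (1 / C0)) := by
            apply mul_le_mul_of_nonneg_left _ (by positivity)
            exact mul_le_mul_of_nonneg_left e1 (by positivity)
        _ = (P * (4 / ε ^ 2) * (6 * Cs * E3 κ K) * (4 / ε)) / C0 * (ε / (4 * P)) := by field_simp; ring
        _ ≤ 1 * (ε / (4 * P)) := by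
            apply mul_le_mul_of_nonneg_right _ (by positivity)
            rw [div_le_one (by linarith)]
            rw [hC0]
            linarith
        _ = _ := one_mul _
    have e3 : 1 / (ε / 2) ^ 2 * (Real.sqrt (12 * δ * E1 κ K) * Cs) ≤ ε / (4 * P) := by
      have h2 : Real.sqrt (12 * δ * E1 κ K) ≤ ε ^ 3 / (16 * P * Cs) := by
        rw [Real.sqrt_le_left (by positivity)]
        have h3 : 12 * δ * E1 κ K = (ε ^ 3 / (16 * P * Cs)) ^ 2 * (E1 κ K / (E1 κ K + 1)) := by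
          rw [hδ]
          field_simp
        rw [h3]
        apply mul_le_of_le_one_right (by positivity)
        rw [div_le_one (by linarith)]
        linarith
      calc 1 / (ε / 2) ^ 2 * (Real.sqrt (12 * δ * E1 κ K) * Cs) ≤ 1 / (ε / 2) ^ 2 * (ε ^ 3 / (16 * P * Cs) * Cs) := by
            apply mul_le_mul_of_nonneg_left _ (by positivity)
            exact mul_le_mul_of_nonneg_right h2 (by linarith)
        _ = ε / (4 * P) := by field_simp; ring
    calc 1 / (ε / 2) ^ 2 * (6 * Cs * E3 κ K * (L ^ F.card / H) + Real.sqrt (12 * δ * E1 κ K) * Cs) =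
          1 / (ε / 2) ^ 2 * (6 * Cs * E3 κ K * (L ^ F.card / H)) + 1 / (ε / 2) ^ 2 * (Real.sqrt (12 * δ * E1 κ K) * Cs) := by ring
      _ ≤ ε / (4 * P) + ε / (4 * P) := add_le_add e2 e3
      _ = ε / (2 * P) := by field_simp; ring
  -- the covering
  have hsub : ((Bx F a H) ×ˢ (Icc 1 H)).filter (fun x : (κ → ℤ) × ℕ => ∃ X : ℕ, X ≤ N ∧
        ε * N < ‖∑ n ∈ Ioc (0 : ℤ) X, b x.1 n * ((∏ i, Lz (n + x.1 i) : ℝ) : ℂ) *
          exI h (n + (x.2 : ℤ) + (B : ℤ))‖) ⊆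
      (((Bx F a H) \ (Gd F a H K)) ×ˢ (Icc 1 H)) ∪ (range (R + 1)).biUnion Sr := by
    intro x hx
    rw [mem_filter, mem_product] at hx
    obtain ⟨⟨hx1, hx2⟩, X, hXN, hX⟩ := hx
    rw [mem_union]
    by_cases hg : x.1 ∈ Gd F a H K
    · right
      rw [mem_biUnion]
      set r : ℕ := X / Y with hr
      have hrY : r * Y ≤ X := Nat.div_mul_le_self X Y
      have hrY2 : X < r * Y + Y := by
        have := Nat.lt_div_mul_add (a := X) hY0
        rw [hr]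
        exact this
      have hrR : r < R + 1 := by
        rw [hr, Nat.div_lt_iff_lt_mul hY0]
        have h1 : N < R * (N / R + 1) := Nat.lt_mul_div_succ N (by omega)
        calc X ≤ N := hXN
          _ < R * Y := h1
          _ ≤ (R + 1) * Y := Nat.mul_le_mul_right _ (by omega)
      refine ⟨r, mem_range.2 hrR, ?_⟩
      rw [hSr, mem_filter, mem_product]
      refine ⟨⟨hg, hx2⟩, ?_⟩
      rw [min_eq_left (hrY.trans hXN), cut_sum (b x.1) x.1 (r * Y) N (hrY.trans hXN) (fun n => Fn (n + (x.2 : ℤ)))]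
      set g : ℤ → ℂ := fun n => b x.1 n * ((∏ i, Lz (n + x.1 i) : ℝ) : ℂ) * exI h (n + (x.2 : ℤ) + (B : ℤ)) with hgdef
      have hsplit : ∑ n ∈ Ioc (0 : ℤ) X, g n = ∑ n ∈ Ioc (0 : ℤ) ((r * Y : ℕ) : ℤ), g n + ∑ n ∈ Ioc (((r * Y : ℕ)) : ℤ) X, g n := by
        rw [← sum_union]
        · apply sum_congr _ fun _ _ => rfl
          ext n
          rw [mem_union, mem_Ioc, mem_Ioc, mem_Ioc]
          have : ((r * Y : ℕ) : ℤ) ≤ X := by exact_mod_cast hrY
          have h0' : (0 : ℤ) ≤ ((r * Y : ℕ) : ℤ) := Int.natCast_nonneg _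
          omega
        · rw [disjoint_left]
          intro n hn hn'
          rw [mem_Ioc] at hn hn'
          omega
      have hrest : ‖∑ n ∈ Ioc (((r * Y : ℕ)) : ℤ) X, g n‖ ≤ ε / 2 * N := by
        refine le_trans ?_ (hshort x.1 hg (r * Y) (hrY.trans hXN))
        refine (norm_sum_le _ _).trans ?_
        have h1 : ∀ n ∈ Ioc (((r * Y : ℕ)) : ℤ) X, ‖g n‖ ≤ ∏ i, Lz (n + x.1 i) := by
          intro n _
          have h0' : 0 ≤ ∏ i, Lz (n + x.1 i) := prod_nonneg fun i _ => Lz_nonneg _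
          rw [hgdef]
          simp only
          rw [norm_mul, norm_mul, Complex.norm_real, Real.norm_of_nonneg h0']
          calc ‖b x.1 n‖ * (∏ i, Lz (n + x.1 i)) * ‖exI h (n + (x.2 : ℤ) + (B : ℤ))‖ ≤
                1 * (∏ i, Lz (n + x.1 i)) * 1 := by
                apply mul_le_mul _ (exI_norm1 h hb _) (norm_nonneg _) (by positivity)
                exact mul_le_mul_of_nonneg_right (hb1 _ _) h0'
            _ = _ := by ring
        refine (sum_le_sum h1).trans ?_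
        apply sum_le_sum_of_subset_of_nonneg
        · intro n hn
          rw [mem_Ioc] at hn ⊢
          have : (X : ℤ) < ((r * Y : ℕ) : ℤ) + Y := by exact_mod_cast hrY2
          omega
        · intro n _ _
          exact prod_nonneg fun i _ => Lz_nonneg _
      have hX' : ε * N < ‖∑ n ∈ Ioc (0 : ℤ) X, g n‖ := hX
      rw [hsplit] at hX'
      have h5 := norm_add_le (∑ n ∈ Ioc (0 : ℤ) ((r * Y : ℕ) : ℤ), g n) (∑ n ∈ Ioc (((r * Y : ℕ)) : ℤ) X, g n)
      have h6 : ε / 2 * N < ‖∑ n ∈ Ioc (0 : ℤ) ((r * Y : ℕ) : ℤ), g n‖ := by linarith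
      exact h6
    · left
      rw [mem_product, mem_sdiff]
      exact ⟨⟨hx1, hg⟩, hx2⟩
  have hcard1 := card_le_card hsub
  have hcard2 : ((((Bx F a H) ×ˢ (Icc 1 H)).filter (fun x : (κ → ℤ) × ℕ => ∃ X : ℕ, X ≤ N ∧
        ε * N < ‖∑ n ∈ Ioc (0 : ℤ) X, b x.1 n * ((∏ i, Lz (n + x.1 i) : ℝ) : ℂ) *
          exI h (n + (x.2 : ℤ) + (B : ℤ))‖)).card : ℝ) ≤
      ((((Bx F a H) \ (Gd F a H K)) ×ˢ (Icc 1 H)).card : ℝ) + (((range (R + 1)).biUnion Sr).card : ℝ) := by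
    exact_mod_cast hcard1.trans (card_union_le _ _)
  refine hcard2.trans ?_
  have e1 : ((((Bx F a H) \ (Gd F a H K)) ×ˢ (Icc 1 H)).card : ℝ) ≤ ε / 2 * (H : ℝ) ^ ((Fᶜ).card + 1) := by
    rw [card_product, Nat.card_Icc, Nat.add_sub_cancel, pow_succ]
    push_cast
    have := mul_le_mul_of_nonneg_right hbad2 hH0.le
    linarith
  have e2 : (((range (R + 1)).biUnion Sr).card : ℝ) ≤ ε / 2 * (H : ℝ) ^ ((Fᶜ).card + 1) := by
    have h1 : (((range (R + 1)).biUnion Sr).card : ℝ) ≤ ∑ r ∈ range (R + 1), ((Sr r).card : ℝ) := by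
      exact_mod_cast card_biUnion_le
    refine h1.trans ((sum_le_sum hSr1).trans (le_of_eq ?_))
    rw [sum_const, card_range, nsmul_eq_mul]
    push_cast
    rw [← hP]
    field_simp
  linarith

end

end Pool.Agent.Y842.JC
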