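import Pool.Agent.TH823.MRS.Circ2

set_option autoImplicit false

/-! The Gram matrix argument: one frequency and all frequencies. -/

namespace Pool.Agent.Y842.JC
open Finset

/-- the Gram matrix bound for one frequency -/
lemma gram_one {ι ζ : Type*} (S : Finset ι) (Z : Finset ζ) (U : ι → ζ → ℂ) (L : ζ → ℂ)
    (Dg Og : ι → ι → ℂ) (D : ι → ι → ℝ) (ρ : ℝ)
    (hρ : 0 ≤ ρ) (hG : ∀ a ∈ S, ∀ b ∈ S, ∑ z ∈ Z, U a z * (starRingEnd ℂ) (U b z) = Dg a b + Og a b)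
    (hD : ∀ a ∈ S, ∀ b ∈ S, ‖Dg a b‖ ≤ D a b)
    (hr : ∀ a ∈ S, ∑ b ∈ S, D a b ≤ ρ) (hc : ∀ b ∈ S, ∑ a ∈ S, D a b ≤ ρ) :
    ∑ a ∈ S, ‖∑ z ∈ Z, U a z * L z‖ ^ 2 ≤
      (∑ z ∈ Z, ‖L z‖ ^ 2) * (ρ + Real.sqrt (∑ a ∈ S, ∑ b ∈ S, ‖Og a b‖ ^ 2)) := by
  set K : ι → ℂ := fun a => ∑ z ∈ Z, U a z * L z with hK
  set A : ℝ := ∑ a ∈ S, ‖K a‖ ^ 2 with hA
  set V : ζ → ℂ := fun z => ∑ a ∈ S, (starRingEnd ℂ) (K a) * U a z with hV
  have hA0 : 0 ≤ A := sum_nonneg fun _ _ => by positivity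
  have hAV : (A : ℂ) = ∑ z ∈ Z, L z * V z := by
    have h1 : (A : ℂ) = ∑ a ∈ S, (starRingEnd ℂ) (K a) * K a := by
      rw [hA]
      push_cast
      apply sum_congr rfl
      intro a _
      rw [mul_comm, Complex.mul_conj']
    rw [h1]
    have h2 : ∀ a ∈ S, (starRingEnd ℂ) (K a) * K a = ∑ z ∈ Z, (starRingEnd ℂ) (K a) * (U a z * L z) := by
      intro a _
      rw [← mul_sum]
    rw [sum_congr rfl h2, sum_comm]
    apply sum_congr rfl
    intro z _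
    rw [hV]
    simp only
    rw [mul_sum]
    apply sum_congr rfl
    intro a _
    ring
  have hVV : (∑ z ∈ Z, ‖V z‖ ^ 2 : ℝ) ≤ ρ * A + A * Real.sqrt (∑ a ∈ S, ∑ b ∈ S, ‖Og a b‖ ^ 2) := by
    have h1 : ((∑ z ∈ Z, ‖V z‖ ^ 2 : ℝ) : ℂ) =
        ∑ a ∈ S, ∑ b ∈ S, (starRingEnd ℂ) (K a) * K b * (Dg a b + Og a b) := by
      push_cast
      have h2 : ∀ z ∈ Z, ((‖V z‖ : ℂ)) ^ 2 = ∑ a ∈ S, ∑ b ∈ S,
          (starRingEnd ℂ) (K a) * K b * (U a z * (starRingEnd ℂ) (U b z)) := by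
        intro z _
        rw [← Complex.mul_conj', hV]
        simp only
        rw [map_sum, sum_mul_sum]
        apply sum_congr rfl
        intro a _
        apply sum_congr rfl
        intro b _
        rw [map_mul, Complex.conj_conj]
        ring
      rw [sum_congr rfl h2, sum_comm]
      apply sum_congr rfl
      intro a ha
      rw [sum_comm]
      apply sum_congr rfl
      intro b hb
      rw [← mul_sum, hG a ha b hb]
    have h3 : (∑ z ∈ Z, ‖V z‖ ^ 2 : ℝ) = ‖((∑ z ∈ Z, ‖V z‖ ^ 2 : ℝ) : ℂ)‖ := by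
      rw [Complex.norm_real, Real.norm_of_nonneg (sum_nonneg fun _ _ => by positivity)]
    rw [h3, h1]
    have h4 : ‖∑ a ∈ S, ∑ b ∈ S, (starRingEnd ℂ) (K a) * K b * (Dg a b + Og a b)‖ ≤
        ∑ a ∈ S, ∑ b ∈ S, (‖K a‖ * ‖K b‖ * D a b + ‖K a‖ * ‖K b‖ * ‖Og a b‖) := by
      refine (norm_sum_le _ _).trans (sum_le_sum fun a ha => ?_)
      refine (norm_sum_le _ _).trans (sum_le_sum fun b hb => ?_)
      rw [norm_mul, norm_mul, RCLike.norm_conj, ← mul_add]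
      apply mul_le_mul_of_nonneg_left _ (by positivity)
      exact (norm_add_le _ _).trans (add_le_add (hD a ha b hb) le_rfl)
    refine h4.trans ?_
    simp only [sum_add_distrib]
    apply add_le_add
    · have h5 : ∑ a ∈ S, ∑ b ∈ S, ‖K a‖ * ‖K b‖ * D a b ≤
          ∑ a ∈ S, ∑ b ∈ S, (1 / 2 * (‖K a‖ ^ 2 * D a b) + 1 / 2 * (‖K b‖ ^ 2 * D a b)) := by
        apply sum_le_sum
        intro a ha
        apply sum_le_sum
        intro b hb
        have h6 : 0 ≤ D a b := (norm_nonneg _).trans (hD a ha b hb)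
        have h7 : ‖K a‖ * ‖K b‖ ≤ 1 / 2 * ‖K a‖ ^ 2 + 1 / 2 * ‖K b‖ ^ 2 := by
          nlinarith [sq_nonneg (‖K a‖ - ‖K b‖)]
        nlinarith
      refine h5.trans ?_
      simp only [sum_add_distrib]
      have h8 : ∑ a ∈ S, ∑ b ∈ S, 1 / 2 * (‖K a‖ ^ 2 * D a b) ≤ 1 / 2 * (ρ * A) := by
        have : ∑ a ∈ S, ∑ b ∈ S, 1 / 2 * (‖K a‖ ^ 2 * D a b) =
            ∑ a ∈ S, 1 / 2 * (‖K a‖ ^ 2 * ∑ b ∈ S, D a b) := by
          apply sum_congr rfl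
          intro a _
          rw [← mul_sum, ← mul_sum]
        rw [this, hA, mul_sum, mul_sum]
        apply sum_le_sum
        intro a ha
        have := mul_le_mul_of_nonneg_left (hr a ha) (by positivity : 0 ≤ ‖K a‖ ^ 2)
        linarith
      have h9 : ∑ a ∈ S, ∑ b ∈ S, 1 / 2 * (‖K b‖ ^ 2 * D a b) ≤ 1 / 2 * (ρ * A) := by
        rw [sum_comm]
        have : ∑ b ∈ S, ∑ a ∈ S, 1 / 2 * (‖K b‖ ^ 2 * D a b) =
            ∑ b ∈ S, 1 / 2 * (‖K b‖ ^ 2 * ∑ a ∈ S, D a b) := by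
          apply sum_congr rfl
          intro a _
          rw [← mul_sum, ← mul_sum]
        rw [this, hA, mul_sum, mul_sum]
        apply sum_le_sum
        intro a ha
        have := mul_le_mul_of_nonneg_left (hc a ha) (by positivity : 0 ≤ ‖K a‖ ^ 2)
        linarith
      linarith
    · have h5 := Real.sum_mul_le_sqrt_mul_sqrt (S ×ˢ S) (fun x => ‖K x.1‖ * ‖K x.2‖) (fun x => ‖Og x.1 x.2‖)
      rw [sum_product, sum_product, sum_product] at h5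
      refine h5.trans (mul_le_mul_of_nonneg_right (le_of_eq ?_) (Real.sqrt_nonneg _))
      have h6 : ∑ a ∈ S, ∑ b ∈ S, (‖K a‖ * ‖K b‖) ^ 2 = A ^ 2 := by
        rw [hA, sq, sum_mul_sum]
        apply sum_congr rfl
        intro a _
        apply sum_congr rfl
        intro b _
        ring
      simp only
      rw [h6, Real.sqrt_sq hA0]
  have hCS : A ^ 2 ≤ (∑ z ∈ Z, ‖L z‖ ^ 2) * ∑ z ∈ Z, ‖V z‖ ^ 2 := by
    have h1 : A ≤ ∑ z ∈ Z, ‖L z‖ * ‖V z‖ := by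
      have h2 : A = ‖(A : ℂ)‖ := by rw [Complex.norm_real, Real.norm_of_nonneg hA0]
      rw [h2, hAV]
      refine (norm_sum_le _ _).trans (le_of_eq ?_)
      exact sum_congr rfl fun z _ => norm_mul _ _
    have h3 := sum_mul_sq_le_sq_mul_sq Z (fun z => ‖L z‖) (fun z => ‖V z‖)
    exact (pow_le_pow_left₀ hA0 h1 2).trans h3
  have hL0 : 0 ≤ ∑ z ∈ Z, ‖L z‖ ^ 2 := sum_nonneg fun _ _ => by positivity
  have hfin : A * A ≤ A * ((∑ z ∈ Z, ‖L z‖ ^ 2) * (ρ + Real.sqrt (∑ a ∈ S, ∑ b ∈ S, ‖Og a b‖ ^ 2))) := by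
    have := hCS.trans (mul_le_mul_of_nonneg_left hVV hL0)
    linarith [this, sq A]
  rcases hA0.eq_or_lt with h0 | h0
  · rw [← h0]
    exact mul_nonneg hL0 (add_nonneg hρ (Real.sqrt_nonneg _))
  · exact le_of_mul_le_mul_left hfin h0

end Pool.Agent.Y842.JC
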