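import Pool.Agent.Y842.JC.Core
import Pool.Agent.Y842.JC.Sieve2

set_option autoImplicit false

/-! Almost all shifts in very short intervals: the theorem for a weight with small exponential sums. -/

namespace Pool.Agent.Y842.JC
open Finset
open Pool.Agent.TH823.MRS (ExpoSmall)
open Pool.Agent.H373R2.T7 (exI)

section
variable {κ : Type} [Fintype κ] [DecidableEq κ]

omit [DecidableEq κ] in
lemma PG_vs (η : κ → ℤ) (K : ℝ) (h : ∀ i l, gz 2 (η i - η l) ≤ K) : PG (vs η) ≤ K ^ Fintype.card κ ^ 2 := by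
  classical
  have h1 : PG (vs η) ≤ ∏ x : κ, ∏ y : κ, gz 2 (η x - η y) := by
    unfold PG vs
    have h2 : (univ.image η).offDiag ⊆ (univ : Finset (κ × κ)).image (fun q => (η q.1, η q.2)) := by
      intro q hq
      rw [mem_offDiag, mem_image, mem_image] at hq
      obtain ⟨⟨x, _, hx⟩, ⟨y, _, hy⟩, _⟩ := hq
      rw [mem_image]
      exact ⟨(x, y), mem_univ _, by simp only [hx, hy]⟩
    have h3 := prod_mono_one (f := fun q : ℤ × ℤ => gz 2 (q.1 - q.2)) h2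
      (fun q => one_le_gz (by norm_num) _)
    refine h3.trans ?_
    refine (prod_image_leR univ (fun q : κ × κ => (η q.1, η q.2)) (fun q => gz 2 (q.1 - q.2))
      (fun q => one_le_gz (by norm_num) _)).trans (le_of_eq ?_)
    simp only
    rw [← univ_product_univ, prod_product]
  refine h1.trans ?_
  calc ∏ x : κ, ∏ y : κ, gz 2 (η x - η y) ≤ ∏ _x : κ, ∏ _y : κ, K := by
        apply prod_le_prod (fun x _ => prod_nonneg fun y _ => gz_nonneg (by norm_num) _)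
        intro x _
        exact prod_le_prod (fun y _ => gz_nonneg (by norm_num) _) (fun y _ => h x y)
    _ = K ^ Fintype.card κ ^ 2 := by
        rw [prod_const, prod_const, card_univ, ← pow_mul, sq]

omit [DecidableEq κ] in
/-- the cut sum -/
lemma cut_sum (b : ℤ → ℂ) (η : κ → ℤ) (X N : ℕ) (hX : X ≤ N) (G : ℤ → ℂ) :
    ∑ n ∈ Ioc (0 : ℤ) N, uu b η X n * G n = ∑ n ∈ Ioc (0 : ℤ) X, b n * ((∏ i, Lz (n + η i) : ℝ) : ℂ) * G n := by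
  have h1 : ∑ n ∈ Ioc (0 : ℤ) N, uu b η X n * G n = ∑ n ∈ (Ioc (0 : ℤ) N).filter (fun n => 0 < n ∧ n ≤ (X : ℤ)),
      b n * ((∏ i, Lz (n + η i) : ℝ) : ℂ) * G n := by
    rw [sum_filter]
    apply sum_congr rfl
    intro n _
    unfold uu
    split_ifs
    · rfl
    · rw [zero_mul]
  rw [h1]
  apply sum_congr _ fun _ _ => rfl
  ext n
  rw [mem_filter, mem_Ioc, mem_Ioc]
  omega

/-- Chebyshev for one cut -/
lemma cheb (h0 : 0 < Fintype.card κ) (F : Finset κ) (hF : F.Nonempty) (a : κ → ℤ) (H N : ℕ) (hH : 1 ≤ H) (hHN : H ≤ N)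
    (ha : ∀ i ∈ F, |a i| ≤ H) (K : ℝ) (hK : 1 ≤ K) (Cs : ℝ) (hCs : 1 ≤ Cs)
    (hs : ∀ T : Finset ℤ, T.card ≤ 2 * Fintype.card κ → (∀ t ∈ T, |t| ≤ 4 * N) →
      ∑ n ∈ Ioc (0 : ℤ) N, ∏ t ∈ T, Lz (n + t) ≤ Cs * N * PG T)
    (hL1 : 1 ≤ Real.log (6 * N)) (hLH : Real.log (6 * N) ≤ H) (b : (κ → ℤ) → ℤ → ℂ) (hb : ∀ η n, ‖b η n‖ ≤ 1)
    (X : ℕ) (hX : X ≤ N) (Fn : ℤ → ℂ) (hFn : ∀ n, ‖Fn n‖ ≤ 1) (δ : ℝ) (hδ : 0 ≤ δ)
    (hl : ∀ t, ∑ z ∈ range (N + 2 * H), ‖LW H (4 * H) Fn z t‖ ≤ δ * H * N) (ε : ℝ) (hε : 0 < ε) :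
    ((((Gd F a H K) ×ˢ (Icc 1 H)).filter (fun x : (κ → ℤ) × ℕ =>
      ε * N < ‖∑ n ∈ Ioc (0 : ℤ) N, uu (b x.1) x.1 X n * Fn (n + (x.2 : ℤ))‖)).card : ℝ) ≤
      (1 / ε ^ 2 * (6 * Cs * E3 κ K * (Real.log (6 * N) ^ F.card / H) + Real.sqrt (12 * δ * E1 κ K) * Cs)) *
        (H : ℝ) ^ ((Fᶜ).card + 1) := by
  classical
  have hm := sm_cut h0 F hF a H N hH hHN ha K hK Cs hCs hs hL1 hLH b hb X hX Fn hFn (δ * H * N) hl
  have hHr : (0 : ℝ) < H := by exact_mod_cast hH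
  have hN0 : (0 : ℝ) < N := by exact_mod_cast (by omega : 0 < N)
  have hHNr : (H : ℝ) ≤ N := by exact_mod_cast hHN
  have hK0 : 0 ≤ K := by linarith
  have hmC : 1 ≤ mC (c1 κ) := mC_ge _
  have hE3 : 0 ≤ E3 κ K := by unfold E3; positivity
  have hE1 : 0 ≤ E1 κ K := by unfold E1; positivity
  have hZ : ((N + 2 * H : ℕ) : ℝ) ≤ 3 * N := by
    push_cast
    linarith
  set S : ℝ := ∑ η ∈ Gd F a H K, ∑ e ∈ Icc 1 H, ‖∑ n ∈ Ioc (0 : ℤ) N, uu (b η) η X n * Fn (n + (e : ℤ))‖ ^ 2 with hS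
  set Ls : ℝ := Real.log (6 * N) ^ F.card with hLs
  have hLs0 : 0 ≤ Ls := by rw [hLs]; positivity
  set s : ℕ := (Fᶜ).card with hsdef
  have hSb : S ≤ (N : ℝ) ^ 2 * ((6 * Cs * E3 κ K * (Ls / H) + Real.sqrt (12 * δ * E1 κ K) * Cs) * (H : ℝ) ^ (s + 1)) := by
    have e1 : 2 * (H : ℝ) * ((N + 2 * H : ℕ) : ℝ) * (H * (Cs * N * (E3 κ K * (Ls * (H : ℝ) ^ s)))) ≤
        (H : ℝ) ^ 2 * ((N : ℝ) ^ 2 * ((6 * Cs * E3 κ K * (Ls / H)) * (H : ℝ) ^ (s + 1))) := by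
      calc 2 * (H : ℝ) * ((N + 2 * H : ℕ) : ℝ) * (H * (Cs * N * (E3 κ K * (Ls * (H : ℝ) ^ s)))) ≤
            2 * (H : ℝ) * (3 * N) * (H * (Cs * N * (E3 κ K * (Ls * (H : ℝ) ^ s)))) := by
            apply mul_le_mul_of_nonneg_right _ (by positivity)
            exact mul_le_mul_of_nonneg_left hZ (by positivity)
        _ = _ := by
            rw [pow_succ (H : ℝ) s]
            field_simp
            ring
    have e2 : Real.sqrt (2 * H * (δ * H * N) * (2 * H * ((N + 2 * H : ℕ) : ℝ))) *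
          Real.sqrt ((H : ℝ) ^ 2 * ((Cs * N) ^ 2 * (((H : ℝ) ^ s) ^ 2 * (E1 κ K * H)))) ≤
        (H : ℝ) ^ 2 * ((N : ℝ) ^ 2 * ((Real.sqrt (12 * δ * E1 κ K) * Cs) * (H : ℝ) ^ (s + 1))) := by
      rw [← Real.sqrt_mul (by positivity)]
      have e3 : 2 * (H : ℝ) * (δ * H * N) * (2 * H * ((N + 2 * H : ℕ) : ℝ)) *
          ((H : ℝ) ^ 2 * ((Cs * N) ^ 2 * (((H : ℝ) ^ s) ^ 2 * (E1 κ K * H)))) ≤
          (12 * δ * E1 κ K) * ((H : ℝ) ^ 2 * (N : ℝ) ^ 2 * Cs * (H : ℝ) ^ (s + 1)) ^ 2 := by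
        calc 2 * (H : ℝ) * (δ * H * N) * (2 * H * ((N + 2 * H : ℕ) : ℝ)) *
              ((H : ℝ) ^ 2 * ((Cs * N) ^ 2 * (((H : ℝ) ^ s) ^ 2 * (E1 κ K * H)))) ≤
              2 * (H : ℝ) * (δ * H * N) * (2 * H * (3 * N)) *
              ((H : ℝ) ^ 2 * ((Cs * N) ^ 2 * (((H : ℝ) ^ s) ^ 2 * (E1 κ K * H)))) := by
              apply mul_le_mul_of_nonneg_right _ (by positivity)
              apply mul_le_mul_of_nonneg_left _ (by positivity)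
              exact mul_le_mul_of_nonneg_left hZ (by positivity)
          _ = _ := by ring
      refine (Real.sqrt_le_sqrt e3).trans (le_of_eq ?_)
      rw [Real.sqrt_mul (by positivity), Real.sqrt_sq (by positivity)]
      ring
    have h3 : (H : ℝ) ^ 2 * S ≤ (H : ℝ) ^ 2 * ((N : ℝ) ^ 2 *
        ((6 * Cs * E3 κ K * (Ls / H) + Real.sqrt (12 * δ * E1 κ K) * Cs) * (H : ℝ) ^ (s + 1))) := by
      refine hm.trans ((add_le_add e1 e2).trans (le_of_eq ?_))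
      ring
    exact le_of_mul_le_mul_left h3 (by positivity)
  have hcount : (ε * N) ^ 2 * ((((Gd F a H K) ×ˢ (Icc 1 H)).filter (fun x : (κ → ℤ) × ℕ =>
      ε * N < ‖∑ n ∈ Ioc (0 : ℤ) N, uu (b x.1) x.1 X n * Fn (n + (x.2 : ℤ))‖)).card : ℝ) ≤ S := by
    rw [hS, ← sum_product']
    calc (ε * N) ^ 2 * ((((Gd F a H K) ×ˢ (Icc 1 H)).filter (fun x : (κ → ℤ) × ℕ =>
          ε * N < ‖∑ n ∈ Ioc (0 : ℤ) N, uu (b x.1) x.1 X n * Fn (n + (x.2 : ℤ))‖)).card : ℝ) =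
          ∑ _x ∈ ((Gd F a H K) ×ˢ (Icc 1 H)).filter (fun x : (κ → ℤ) × ℕ =>
          ε * N < ‖∑ n ∈ Ioc (0 : ℤ) N, uu (b x.1) x.1 X n * Fn (n + (x.2 : ℤ))‖), (ε * N) ^ 2 := by
          rw [sum_const, nsmul_eq_mul, mul_comm]
      _ ≤ ∑ x ∈ ((Gd F a H K) ×ˢ (Icc 1 H)).filter (fun x : (κ → ℤ) × ℕ =>
          ε * N < ‖∑ n ∈ Ioc (0 : ℤ) N, uu (b x.1) x.1 X n * Fn (n + (x.2 : ℤ))‖),
            ‖∑ n ∈ Ioc (0 : ℤ) N, uu (b x.1) x.1 X n * Fn (n + (x.2 : ℤ))‖ ^ 2 := by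
          apply sum_le_sum
          intro x hx
          exact pow_le_pow_left₀ (by positivity) (mem_filter.1 hx).2.le 2
      _ ≤ _ := sum_le_sum_of_subset_of_nonneg (filter_subset _ _) fun _ _ _ => by positivity
  have h4 := hcount.trans hSb
  have h5 : (ε * N) ^ 2 * ((((Gd F a H K) ×ˢ (Icc 1 H)).filter (fun x : (κ → ℤ) × ℕ =>
      ε * N < ‖∑ n ∈ Ioc (0 : ℤ) N, uu (b x.1) x.1 X n * Fn (n + (x.2 : ℤ))‖)).card : ℝ) ≤
      (ε * N) ^ 2 * ((1 / ε ^ 2 * (6 * Cs * E3 κ K * (Ls / H) + Real.sqrt (12 * δ * E1 κ K) * Cs)) *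
        (H : ℝ) ^ (s + 1)) := by
    refine h4.trans (le_of_eq ?_)
    field_simp
  exact le_of_mul_le_mul_left h5 (by positivity)

end

end Pool.Agent.Y842.JC
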