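import Pool.Agent.Y842.JC.Fin

set_option autoImplicit false

/-! Almost all shifts in very short intervals: the theorem over the natural numbers. -/

namespace Pool.Agent.Y842.JC
open Finset
open Pool.Agent.TH823.MRS (ExpoSmall exI_norm1)
open Pool.Agent.H373R2.T7 (exI)

open Classical in
/-- almost all shifts: `f` fixed and `s` moving shifts of the von Mangoldt function -/
theorem mainN (h : ℕ → ℂ) (hb : ∀ n, ‖h n‖ ≤ 1) (hE : ExpoSmall h) (f s : ℕ) (hf : 1 ≤ f) (D : ℕ) (ε : ℝ) (hε : 0 < ε) :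
    ∃ C : ℝ, ∃ N₀ : ℕ, ∀ N : ℕ, N₀ ≤ N → ∀ H : ℕ, C * Real.log N ^ f ≤ H → H ≤ N → ∀ a : Fin f → ℕ,
      Function.Injective a → (∀ i, a i ≤ H) → (∀ i l, a i ≤ a l + D) → ∀ B : ℕ, B ≤ N →
      ∀ b : (Fin s → ℕ) → ℕ → ℂ, (∀ x n, ‖b x n‖ ≤ 1) →
      ((((Fintype.piFinset fun _ : Fin s => Icc 1 H) ×ˢ (Icc 1 H)).filter (fun x : (Fin s → ℕ) × ℕ =>
        ∃ X : ℕ, X ≤ N ∧ ε * N < ‖∑ n ∈ Icc 1 X, b x.1 n *
          (((∏ i, ArithmeticFunction.vonMangoldt (n + a i)) *
            ∏ j, ArithmeticFunction.vonMangoldt (n + x.1 j) : ℝ) : ℂ) * h (n + x.2 + B)‖)).card : ℝ) ≤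
        ε * (H : ℝ) ^ (s + 1) := by
  set F : Finset (Fin f ⊕ Fin s) := univ.image Sum.inl with hF
  have hFc : F.card = f := by
    rw [hF, card_image_of_injective _ Sum.inl_injective, card_univ, Fintype.card_fin]
  have hFcc : (Fᶜ).card = s := by
    rw [card_compl, hFc, Fintype.card_sum, Fintype.card_fin, Fintype.card_fin]
    omega
  have hFmem : ∀ i : Fin f, Sum.inl i ∈ F := fun i => mem_image_of_mem _ (mem_univ i)
  have hFnot : ∀ j : Fin s, Sum.inr j ∉ F := by
    intro j hj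
    rw [hF, mem_image] at hj
    obtain ⟨i, _, hi⟩ := hj
    exact absurd hi (by simp)
  have hFne : F.Nonempty := ⟨Sum.inl ⟨0, hf⟩, hFmem _⟩
  obtain ⟨C, N₀, hmain⟩ := main h hb hE F hFne D ε hε
  refine ⟨C, N₀, fun N hN H hCH hHN a hinj haH haD B hB b hb1 => ?_⟩
  rw [hFc, hFcc] at hmain
  set a' : Fin f ⊕ Fin s → ℤ := Sum.elim (fun i => (a i : ℤ)) 0 with ha'
  set b' : (Fin f ⊕ Fin s → ℤ) → ℤ → ℂ := fun η n => b (fun j => (η (Sum.inr j)).toNat) n.toNat with hb'
  have hm := hmain N hN H hCH hHN a' (by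
      intro i hi
      rw [hF, mem_image] at hi
      obtain ⟨i, _, rfl⟩ := hi
      rw [ha', Sum.elim_inl, Nat.abs_cast]
      exact_mod_cast haH i) (by
      intro i hi l hl h1
      rw [hF, mem_image] at hi hl
      obtain ⟨i, _, rfl⟩ := hi
      obtain ⟨l, _, rfl⟩ := hl
      rw [ha', Sum.elim_inl, Sum.elim_inl] at h1
      have h2 : i = l := hinj (by exact_mod_cast h1)
      rw [h2]) (by
      intro i hi l hl
      rw [hF, mem_image] at hi hl
      obtain ⟨i, _, rfl⟩ := hi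
      obtain ⟨l, _, rfl⟩ := hl
      rw [ha', Sum.elim_inl, Sum.elim_inl, abs_le]
      have h1 := haD i l
      have h2 := haD l i
      omega) B hB b' (fun η n => hb1 _ _)
  refine le_trans ?_ hm
  apply Nat.cast_le.2
  apply card_le_card_of_injOn (fun x : (Fin s → ℕ) × ℕ => ((Sum.elim (fun i => (a i : ℤ)) (fun j => (x.1 j : ℤ)) :
    Fin f ⊕ Fin s → ℤ), x.2))
  · intro x hx
    rw [mem_coe, mem_filter, mem_product, Fintype.mem_piFinset] at hx
    obtain ⟨⟨hx1, hx2⟩, X, hXN, hX⟩ := hx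
    rw [mem_coe, mem_filter, mem_product]
    refine ⟨⟨?_, hx2⟩, X, hXN, ?_⟩
    · rw [mem_Bx]
      constructor
      · intro i hi
        rw [hF, mem_image] at hi
        obtain ⟨i, _, rfl⟩ := hi
        rfl
      · intro i hi
        rcases i with i | j
        · exact absurd (hFmem i) hi
        · have := mem_Icc.1 (hx1 j)
          simp only [Sum.elim_inr]
          omega
    · refine lt_of_lt_of_eq hX ?_
      congr 1
      symm
      apply sum_nbij' (fun n : ℤ => n.toNat) (fun n : ℕ => (n : ℤ))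
      · intro n hn
        rw [mem_Ioc] at hn
        rw [mem_Icc]
        omega
      · intro n hn
        rw [mem_Icc] at hn
        rw [mem_Ioc]
        omega
      · intro n hn
        rw [mem_Ioc] at hn
        omega
      · intro n _
        simp
      · intro n hn
        rw [mem_Ioc] at hn
        obtain ⟨m, rfl⟩ : ∃ m : ℕ, n = m := ⟨n.toNat, by omega⟩
        simp only [Int.toNat_natCast, hb', Sum.elim_inr, Fintype.prod_sum_type, Sum.elim_inl]
        congr 1
        unfold exI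
        have h1 : ((m : ℤ) + (x.2 : ℤ) + (B : ℤ)) = ((m + x.2 + B : ℕ) : ℤ) := by push_cast; ring
        rw [h1, if_pos (by omega), Int.toNat_natCast]
  · intro x _ y _ hxy
    simp only [Prod.mk.injEq] at hxy
    obtain ⟨h1, h2⟩ := hxy
    ext j
    · have h3 := congrFun h1 (Sum.inr j)
      simp only [Sum.elim_inr] at h3
      exact_mod_cast h3
    · exact h2

end Pool.Agent.Y842.JC
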