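import Pool.Agent.Y842.JC.Win

set_option autoImplicit false

/-! The mean square over a family of weights and over the shifts. -/

namespace Pool.Agent.Y842.JC
open Finset
open Pool.Agent.H807R2.Dav (ee norm_ee ee_add ee_int ee_pow ee_zero)
open Pool.Agent.TH823.MRS (pars fid cover)

lemma LW_le (H M : ℕ) (F : ℤ → ℂ) (hF : ∀ n, ‖F n‖ ≤ 1) (z t : ℕ) : ‖LW H M F z t‖ ≤ 2 * H := by
  unfold LW
  refine (norm_sum_le _ _).trans ?_
  have h1 : ∀ n ∈ Ioc ((z : ℤ) - 2 * H) z, ‖F n * ee ((t : ℝ) * (((-1 * n : ℤ) : ℝ) / M))‖ ≤ 1 := by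
    intro n _
    rw [norm_mul, norm_ee, mul_one]
    exact hF n
  refine (sum_le_sum h1).trans ?_
  rw [sum_const, Int.card_Ioc, nsmul_eq_mul, mul_one]
  have : ((z : ℤ) - (z - 2 * H)).toNat = 2 * H := by omega
  rw [this]
  push_cast
  exact le_rfl

open Classical in
theorem second_moment {ι : Type*} (S : Finset ι) (N H Z : ℕ) (hH : 1 ≤ H) (hZ : N + 2 * H ≤ Z)
    (u : ι → ℤ → ℂ) (hu : ∀ a, ∀ n : ℤ, ¬ (0 < n ∧ n ≤ (N : ℤ)) → u a n = 0) (F : ℤ → ℂ)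
    (hF : ∀ n, ‖F n‖ ≤ 1) (off : ι → ι → ℤ → Prop) (ρ R l : ℝ) (hρ : 0 ≤ ρ)
    (hr : ∀ a ∈ S, ∑ b ∈ S, ∑ j ∈ (Ioo (-(H : ℤ)) H).filter (fun j => ¬ off a b j), ‖cor N (u a) (u b) j‖ ≤ ρ)
    (hc : ∀ b ∈ S, ∑ a ∈ S, ∑ j ∈ (Ioo (-(H : ℤ)) H).filter (fun j => ¬ off a b j), ‖cor N (u a) (u b) j‖ ≤ ρ)
    (hR : ∑ a ∈ S, ∑ b ∈ S, ∑ j ∈ (Ioo (-(H : ℤ)) H).filter (fun j => off a b j), ‖cor N (u a) (u b) j‖ ^ 2 ≤ R)
    (hL : ∀ t, ∑ z ∈ range Z, ‖LW H (4 * H) F z t‖ ≤ l) :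
    (H : ℝ) ^ 2 * ∑ a ∈ S, ∑ e ∈ Icc 1 H, ‖∑ n ∈ Ioc (0 : ℤ) N, u a n * F (n + (e : ℤ))‖ ^ 2 ≤
      2 * H * Z * (H * ρ) + Real.sqrt (2 * H * l * (2 * H * Z)) * Real.sqrt ((H : ℝ) ^ 2 * R) := by
  set M : ℕ := 4 * H with hM
  have hM1 : 1 ≤ M := by omega
  have hM0 : (0 : ℝ) < M := by exact_mod_cast hM1
  have hH0 : (0 : ℝ) < H := by exact_mod_cast hH
  set K : ι → ℕ → ℂ := fun a t => ∑ z ∈ range Z, UU H M (u a) z t * LW H M F z t with hK
  set wt : ℤ → ℂ := fun j => (((H : ℝ) - |(j : ℝ)| : ℝ) : ℂ) with hwt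
  have hwt1 : ∀ j ∈ Ioo (-(H : ℤ)) H, ‖wt j‖ ≤ H := by
    intro j hj
    rw [mem_Ioo] at hj
    rw [hwt]
    simp only
    rw [Complex.norm_real, Real.norm_eq_abs, abs_le]
    have h1 : |(j : ℝ)| < H := by
      rw [abs_lt]
      exact ⟨by exact_mod_cast hj.1, by exact_mod_cast hj.2⟩
    have h2 := abs_nonneg (j : ℝ)
    constructor <;> linarith
  set Dg : ℕ → ι → ι → ℂ := fun t a b => ∑ j ∈ (Ioo (-(H : ℤ)) H).filter (fun j => ¬ off a b j),
    wt j * cor N (u a) (u b) j * ee ((t : ℝ) * (((1 * j : ℤ) : ℝ) / M)) with hDg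
  set Og : ℕ → ι → ι → ℂ := fun t a b => ∑ j ∈ (Ioo (-(H : ℤ)) H).filter (fun j => off a b j),
    wt j * cor N (u a) (u b) j * ee ((t : ℝ) * (((1 * j : ℤ) : ℝ) / M)) with hOg
  set D : ι → ι → ℝ := fun a b => H * ∑ j ∈ (Ioo (-(H : ℤ)) H).filter (fun j => ¬ off a b j), ‖cor N (u a) (u b) j‖ with hD
  set B : ℕ → ℝ := fun t => ∑ z ∈ range Z, ‖LW H M F z t‖ ^ 2 with hB
  set O : ℕ → ℝ := fun t => ∑ a ∈ S, ∑ b ∈ S, ‖Og t a b‖ ^ 2 with hO
  have hB0 : ∀ t, 0 ≤ B t := fun t => sum_nonneg fun _ _ => by positivity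
  have hO0 : ∀ t, 0 ≤ O t := fun t => sum_nonneg fun _ _ => sum_nonneg fun _ _ => by positivity
  have hone : ∀ t : ℕ, ∑ a ∈ S, ‖K a t‖ ^ 2 ≤ B t * (H * ρ + Real.sqrt (O t)) := by
    intro t
    apply gram_one S (range Z) (fun a z => UU H M (u a) z t) (fun z => LW H M F z t) (Dg t) (Og t) D (H * ρ) (by positivity)
    · intro a _ b _
      rw [gram_expand N H Z hH hZ (u a) (u b) (hu a) (hu b) t, hDg, hOg]
      simp only
      rw [add_comm, sum_filter_add_sum_filter_not]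
    · intro a _ b _
      rw [hDg, hD]
      simp only
      rw [mul_sum]
      refine (norm_sum_le _ _).trans (sum_le_sum fun j hj => ?_)
      rw [norm_mul, norm_mul, norm_ee, mul_one]
      exact mul_le_mul_of_nonneg_right (hwt1 j (mem_filter.1 hj).1) (norm_nonneg _)
    · intro a ha
      rw [hD]
      simp only
      rw [← mul_sum]
      exact mul_le_mul_of_nonneg_left (hr a ha) hH0.le
    · intro b hb
      rw [hD]
      simp only
      rw [← mul_sum]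
      exact mul_le_mul_of_nonneg_left (hc b hb) hH0.le
  have hBsum : ∑ t ∈ range M, B t ≤ M * (2 * H * Z) := by
    rw [hB]
    simp only
    rw [sum_comm]
    have h1 : ∀ z ∈ range Z, ∑ t ∈ range M, ‖LW H M F z t‖ ^ 2 ≤ M * (2 * H) := by
      intro z _
      unfold LW
      rw [pars (Ioc ((z : ℤ) - 2 * H) z) M hM1 (by
        intro a ha b hb
        rw [mem_Ioc] at ha hb
        rw [abs_lt]
        omega) F (-1) (Or.inr rfl)]
      apply mul_le_mul_of_nonneg_left _ hM0.le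
      have h2 : ∀ n ∈ Ioc ((z : ℤ) - 2 * H) z, ‖F n‖ ^ 2 ≤ 1 := fun n _ => pow_le_one₀ (norm_nonneg _) (hF n)
      refine (sum_le_sum h2).trans ?_
      rw [sum_const, Int.card_Ioc, nsmul_eq_mul, mul_one]
      have : ((z : ℤ) - (z - 2 * H)).toNat = 2 * H := by omega
      rw [this]
      push_cast
      exact le_rfl
    refine (sum_le_sum h1).trans ?_
    rw [sum_const, card_range, nsmul_eq_mul]
    linarith
  have hBsup : ∀ t, B t ≤ 2 * H * l := by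
    intro t
    have h1 : B t ≤ ∑ z ∈ range Z, 2 * H * ‖LW H M F z t‖ := by
      apply sum_le_sum
      intro z _
      rw [sq]
      exact mul_le_mul_of_nonneg_right (LW_le H M F hF z t) (norm_nonneg _)
    refine h1.trans ?_
    rw [← mul_sum]
    exact mul_le_mul_of_nonneg_left (hL t) (by positivity)
  have hB2 : ∑ t ∈ range M, B t ^ 2 ≤ M * (2 * H * l * (2 * H * Z)) := by
    have h1 : ∀ t ∈ range M, B t ^ 2 ≤ 2 * H * l * B t := by
      intro t _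
      rw [sq]
      exact mul_le_mul_of_nonneg_right (hBsup t) (hB0 t)
    refine (sum_le_sum h1).trans ?_
    rw [← mul_sum]
    have h2 : 0 ≤ 2 * H * l := (hB0 0).trans (hBsup 0)
    refine (mul_le_mul_of_nonneg_left hBsum h2).trans (le_of_eq ?_)
    ring
  have hOsum : ∑ t ∈ range M, O t ≤ M * ((H : ℝ) ^ 2 * R) := by
    rw [hO]
    simp only
    rw [sum_comm]
    have h1 : ∀ a ∈ S, ∑ t ∈ range M, ∑ b ∈ S, ‖Og t a b‖ ^ 2 ≤
        ∑ b ∈ S, M * ((H : ℝ) ^ 2 * ∑ j ∈ (Ioo (-(H : ℤ)) H).filter (fun j => off a b j), ‖cor N (u a) (u b) j‖ ^ 2) := by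
      intro a _
      rw [sum_comm]
      apply sum_le_sum
      intro b _
      rw [hOg]
      simp only
      rw [pars ((Ioo (-(H : ℤ)) H).filter (fun j => off a b j)) M hM1 (by
        intro x hx y hy
        rw [mem_filter, mem_Ioo] at hx hy
        rw [abs_lt]
        omega) (fun j => wt j * cor N (u a) (u b) j) 1 (Or.inl rfl)]
      apply mul_le_mul_of_nonneg_left _ hM0.le
      rw [mul_sum]
      apply sum_le_sum
      intro j hj
      rw [norm_mul, mul_pow]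
      apply mul_le_mul_of_nonneg_right _ (by positivity)
      exact pow_le_pow_left₀ (norm_nonneg _) (hwt1 j (mem_filter.1 hj).1) 2
    refine (sum_le_sum h1).trans ?_
    simp only [← mul_sum]
    apply mul_le_mul_of_nonneg_left _ hM0.le
    exact mul_le_mul_of_nonneg_left hR (by positivity)
  have hmain : (M : ℝ) * ((H : ℝ) ^ 2 * ∑ a ∈ S, ∑ e ∈ Icc 1 H, ‖∑ n ∈ Ioc (0 : ℤ) N, u a n * F (n + (e : ℤ))‖ ^ 2) ≤
      ∑ t ∈ range M, ∑ a ∈ S, ‖K a t‖ ^ 2 := by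
    have hsw : ∑ t ∈ range M, ∑ a ∈ S, ‖K a t‖ ^ 2 = ∑ a ∈ S, ∑ t ∈ range M, ‖K a t‖ ^ 2 := sum_comm
    rw [hsw, mul_sum, mul_sum]
    apply sum_le_sum
    intro a _
    have h1 := bessel H hH (K a)
    have h2 : ∀ e ∈ Icc 1 H, ‖∑ t ∈ range (4 * H), K a t * ee ((t : ℝ) * ((e : ℝ) / (4 * H : ℕ)))‖ ^ 2 =
        (M : ℝ) * ((M : ℝ) * ((H : ℝ) ^ 2 * ‖∑ n ∈ Ioc (0 : ℤ) N, u a n * F (n + (e : ℤ))‖ ^ 2)) := by
      intro e he
      rw [hK]
      simp only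
      rw [← coeff N H Z hH hZ (u a) F (hu a) e he, norm_mul, norm_mul, Complex.norm_natCast, Complex.norm_natCast]
      ring
    rw [sum_congr rfl h2, ← mul_sum] at h1
    have h3 := le_of_mul_le_mul_left h1 hM0
    refine le_trans (le_of_eq ?_) h3
    rw [mul_sum, mul_sum]
  have hall : ∑ t ∈ range M, ∑ a ∈ S, ‖K a t‖ ^ 2 ≤
      M * (2 * H * Z * (H * ρ) + Real.sqrt (2 * H * l * (2 * H * Z)) * Real.sqrt ((H : ℝ) ^ 2 * R)) := by
    refine (sum_le_sum fun t _ => hone t).trans ?_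
    have h1 : ∑ t ∈ range M, B t * (H * ρ + Real.sqrt (O t)) =
        (∑ t ∈ range M, B t) * (H * ρ) + ∑ t ∈ range M, B t * Real.sqrt (O t) := by
      rw [sum_mul, ← sum_add_distrib]
      apply sum_congr rfl
      intro t _
      ring
    rw [h1]
    have h2 := Real.sum_mul_le_sqrt_mul_sqrt (range M) B (fun t => Real.sqrt (O t))
    have h3 : ∑ t ∈ range M, Real.sqrt (O t) ^ 2 = ∑ t ∈ range M, O t :=
      sum_congr rfl fun t _ => Real.sq_sqrt (hO0 t)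
    rw [h3] at h2
    have h4 : Real.sqrt (∑ t ∈ range M, B t ^ 2) * Real.sqrt (∑ t ∈ range M, O t) ≤
        Real.sqrt (M * (2 * H * l * (2 * H * Z))) * Real.sqrt (M * ((H : ℝ) ^ 2 * R)) :=
      mul_le_mul (Real.sqrt_le_sqrt hB2) (Real.sqrt_le_sqrt hOsum) (Real.sqrt_nonneg _) (Real.sqrt_nonneg _)
    have h5 : Real.sqrt (M * (2 * H * l * (2 * H * Z))) * Real.sqrt (M * ((H : ℝ) ^ 2 * R)) =
        M * (Real.sqrt (2 * H * l * (2 * H * Z)) * Real.sqrt ((H : ℝ) ^ 2 * R)) := by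
      rw [Real.sqrt_mul hM0.le, Real.sqrt_mul hM0.le]
      have := Real.mul_self_sqrt hM0.le
      linear_combination (Real.sqrt (2 * H * l * (2 * H * Z)) * Real.sqrt ((H : ℝ) ^ 2 * R)) * this
    rw [h5] at h4
    have h6 : (∑ t ∈ range M, B t) * (H * ρ) ≤ M * (2 * H * Z) * (H * ρ) :=
      mul_le_mul_of_nonneg_right hBsum (by positivity)
    linarith
  exact le_of_mul_le_mul_left (hmain.trans hall) hM0

end Pool.Agent.Y842.JC
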