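import Pool.Agent.Y842.JC.Nat

set_option autoImplicit false

/-! Almost all tuples of shifts in very short intervals. -/

namespace Pool.Agent.Y842.JC
open Finset
open Pool.Agent.TH823.MRS (ExpoSmall)

open Classical in
theorem tupN (h : ℕ → ℂ) (hb : ∀ n, ‖h n‖ ≤ 1) (hE : ExpoSmall h) (s m : ℕ) (ε : ℝ) (hε : 0 < ε) :
    ∃ C : ℝ, ∃ N₀ : ℕ, ∀ N : ℕ, N₀ ≤ N → ∀ H : ℕ, C * Real.log N ≤ H → H ≤ N →
      ((((Fintype.piFinset fun _ : Fin (s + 1) => Icc 1 H) ×ˢ (Fintype.piFinset fun _ : Fin (m + 1) => Icc 1 H)).filter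
        (fun x : (Fin (s + 1) → ℕ) × (Fin (m + 1) → ℕ) =>
        ∃ X : ℕ, X ≤ N ∧ ε * N < ‖∑ n ∈ Icc 1 X,
          ((∏ i, ArithmeticFunction.vonMangoldt (n + x.1 i) : ℝ) : ℂ) * ∏ j, h (n + x.2 j)‖)).card : ℝ) ≤
        ε * (H : ℝ) ^ (s + 1 + (m + 1)) := by
  obtain ⟨C, N₀, hmain⟩ := mainN h hb hE 1 s le_rfl 0 ε hε
  refine ⟨C, N₀, fun N hN H hCH hHN => ?_⟩
  set S := ((Fintype.piFinset fun _ : Fin (s + 1) => Icc 1 H) ×ˢ (Fintype.piFinset fun _ : Fin (m + 1) => Icc 1 H)).filter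
        (fun x : (Fin (s + 1) → ℕ) × (Fin (m + 1) → ℕ) =>
        ∃ X : ℕ, X ≤ N ∧ ε * N < ‖∑ n ∈ Icc 1 X,
          ((∏ i, ArithmeticFunction.vonMangoldt (n + x.1 i) : ℝ) : ℂ) * ∏ j, h (n + x.2 j)‖) with hS
  set T : Finset (ℕ × (Fin m → ℕ)) := (Icc 1 H) ×ˢ (Fintype.piFinset fun _ : Fin m => Icc 1 H) with hT
  have h1 : S.card = ∑ t ∈ T, (S.filter (fun x => (x.1 0, Fin.tail x.2) = t)).card := by
    apply card_eq_sum_card_fiberwise
    intro x hx
    rw [mem_coe, hS, mem_filter, mem_product, Fintype.mem_piFinset, Fintype.mem_piFinset] at hx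
    rw [mem_coe, hT, mem_product, Fintype.mem_piFinset]
    exact ⟨hx.1.1 0, fun j => hx.1.2 j.succ⟩
  have h2 : ∀ t ∈ T, ((S.filter (fun x => (x.1 0, Fin.tail x.2) = t)).card : ℝ) ≤ ε * (H : ℝ) ^ (s + 1) := by
    intro t ht
    rw [hT, mem_product, Fintype.mem_piFinset] at ht
    have h3 := hmain N hN H (by rwa [pow_one]) hHN (fun _ => t.1) (fun i j _ => Subsingleton.elim i j)
      (fun _ => (mem_Icc.1 ht.1).2) (fun _ _ => le_rfl) 0 (Nat.zero_le _) (fun _ n => ∏ j, h (n + t.2 j))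
      (fun _ n => by
        rw [norm_prod]
        exact prod_le_one (fun _ _ => norm_nonneg _) fun _ _ => hb _)
    refine le_trans ?_ h3
    apply Nat.cast_le.2
    apply card_le_card_of_injOn (fun x : (Fin (s + 1) → ℕ) × (Fin (m + 1) → ℕ) => (Fin.tail x.1, x.2 0))
    · intro x hx
      rw [mem_coe, mem_filter, hS, mem_filter, mem_product, Fintype.mem_piFinset, Fintype.mem_piFinset] at hx
      obtain ⟨⟨⟨hx1, hx2⟩, X, hXN, hX⟩, hxt⟩ := hx
      rw [mem_coe, mem_filter, mem_product, Fintype.mem_piFinset]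
      refine ⟨⟨fun j => hx1 j.succ, hx2 0⟩, X, hXN, lt_of_lt_of_eq hX ?_⟩
      congr 1
      apply sum_congr rfl
      intro n _
      rw [← hxt]
      simp only [Fin.prod_univ_succ, Fin.prod_univ_zero, mul_one, Fin.tail, add_zero]
      ring
    · intro x hx y hy hxy
      rw [mem_coe, mem_filter] at hx hy
      simp only [Prod.mk.injEq] at hxy
      have h4 := hx.2.trans hy.2.symm
      simp only [Prod.mk.injEq] at h4
      apply Prod.ext
      · rw [← Fin.cons_self_tail x.1, ← Fin.cons_self_tail y.1, h4.1, hxy.1]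
      · rw [← Fin.cons_self_tail x.2, ← Fin.cons_self_tail y.2, h4.2, hxy.2]
  have h3 : (S.card : ℝ) = ∑ t ∈ T, ((S.filter (fun x => (x.1 0, Fin.tail x.2) = t)).card : ℝ) := by
    rw [h1]
    push_cast
    rfl
  rw [h3]
  refine (sum_le_sum h2).trans (le_of_eq ?_)
  rw [sum_const, nsmul_eq_mul, hT, card_product, Fintype.card_piFinset, Nat.card_Icc, Nat.add_sub_cancel, prod_const,
    card_univ, Fintype.card_fin]
  push_cast
  rw [pow_add (H : ℝ) (s + 1) (m + 1), pow_succ (H : ℝ) m]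
  ring

end Pool.Agent.Y842.JC
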