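import Pool.Agent.Y842.JC.Gram

set_option autoImplicit false

/-! The circle method in short windows: the mean square over the shifts, for a family of weights. -/

namespace Pool.Agent.Y842.JC
open Finset
open Pool.Agent.H807R2.Dav (ee norm_ee ee_add ee_int ee_pow ee_zero)
open Pool.Agent.TH823.MRS (pars fid cover)

/-- the weights in a window -/
noncomputable def UU (H M : ℕ) (u : ℤ → ℂ) (z t : ℕ) : ℂ :=
  ∑ n ∈ Ioc ((z : ℤ) - 2 * H) (z - H), u n * ee ((t : ℝ) * (((1 * n : ℤ) : ℝ) / M))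

/-- the function in a longer window -/
noncomputable def LW (H M : ℕ) (F : ℤ → ℂ) (z t : ℕ) : ℂ :=
  ∑ n ∈ Ioc ((z : ℤ) - 2 * H) z, F n * ee ((t : ℝ) * (((-1 * n : ℤ) : ℝ) / M))

lemma coeff (N H Z : ℕ) (hH : 1 ≤ H) (hZ : N + 2 * H ≤ Z) (u F : ℤ → ℂ)
    (hu : ∀ n : ℤ, ¬ (0 < n ∧ n ≤ (N : ℤ)) → u n = 0) (e : ℕ) (he : e ∈ Icc 1 H) :
    ((4 * H : ℕ) : ℂ) * (H * ∑ n ∈ Ioc (0 : ℤ) N, u n * F (n + e)) =
      ∑ t ∈ range (4 * H), (∑ z ∈ range Z, UU H (4 * H) u z t * LW H (4 * H) F z t) *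
        ee ((t : ℝ) * ((e : ℝ) / (4 * H : ℕ))) := by
  rw [mem_Icc] at he
  set M : ℕ := 4 * H with hM
  have hM1 : 1 ≤ M := by omega
  have h1 := cover (fun n => u n * F (n + e)) N H Z (by
    intro a ha
    rw [hu a (by omega), zero_mul]) hZ
  have h2 : ∑ a ∈ Ioc (-(H : ℤ)) N, u a * F (a + e) = ∑ n ∈ Ioc (0 : ℤ) N, u n * F (n + e) := by
    symm
    apply sum_subset
    · intro n hn
      rw [mem_Ioc] at hn ⊢
      omega
    · intro n _ hn2
      rw [mem_Ioc] at hn2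
      rw [hu n hn2, zero_mul]
  rw [← h2, ← h1, mul_sum]
  have h3 : ∀ z ∈ range Z, (M : ℂ) * ∑ a ∈ Ioc ((z : ℤ) - 2 * H) (z - H), u a * F (a + e) =
      ∑ t ∈ range M, UU H M u z t * LW H M F z t * ee ((t : ℝ) * ((e : ℝ) / M)) := by
    intro z _
    have h4 := fid (Ioc ((z : ℤ) - 2 * H) (z - H)) (Ioc ((z : ℤ) - 2 * H) z) M 1 hM1 F u (fun _ => 1) (fun _ => e)
      (by
        intro a ha m _
        rw [mem_Ioc] at ha ⊢
        omega)
      (by
        intro a ha b hb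
        rw [mem_Ioc] at ha hb
        rw [abs_lt]
        omega)
    have h5 : ∑ a ∈ Ioc ((z : ℤ) - 2 * H) (z - H), ∑ m ∈ Icc 1 1, u a * (1 : ℂ) * F (a + (e : ℤ)) =
        ∑ a ∈ Ioc ((z : ℤ) - 2 * H) (z - H), u a * F (a + e) := by
      apply sum_congr rfl
      intro a _
      rw [Icc_self, sum_singleton, mul_one]
    rw [h5] at h4
    rw [h4]
    apply sum_congr rfl
    intro t _
    rw [Icc_self, sum_singleton, one_mul]
    unfold UU LW
    push_cast
    ring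
  rw [sum_congr rfl h3, sum_comm]
  apply sum_congr rfl
  intro t _
  rw [sum_mul]

lemma bessel (H : ℕ) (hH : 1 ≤ H) (K : ℕ → ℂ) :
    ∑ e ∈ Icc 1 H, ‖∑ t ∈ range (4 * H), K t * ee ((t : ℝ) * ((e : ℝ) / (4 * H : ℕ)))‖ ^ 2 ≤
      (4 * H : ℕ) * ∑ t ∈ range (4 * H), ‖K t‖ ^ 2 := by
  set M : ℕ := 4 * H with hM
  have hM1 : 1 ≤ M := by omega
  have h1 := pars (Ico (0 : ℤ) M) M hM1 (by
    intro a ha b hb
    rw [mem_Ico] at ha hb
    rw [abs_lt]
    omega) (fun a => K a.toNat) 1 (Or.inl rfl)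
  have h2 : ∀ e : ℕ, ∑ a ∈ Ico (0 : ℤ) M, K a.toNat * ee ((e : ℝ) * (((1 * a : ℤ) : ℝ) / M)) =
      ∑ t ∈ range M, K t * ee ((t : ℝ) * ((e : ℝ) / M)) := by
    intro e
    apply sum_nbij' (fun a : ℤ => a.toNat) (fun t : ℕ => (t : ℤ))
    · intro a ha
      rw [mem_Ico] at ha
      rw [mem_range]
      omega
    · intro t ht
      rw [mem_range] at ht
      rw [mem_Ico]
      omega
    · intro a ha
      rw [mem_Ico] at ha
      omega
    · intro t _
      simp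
    · intro a ha
      rw [mem_Ico] at ha
      have h3 : (a : ℝ) = ((a.toNat : ℕ) : ℝ) := by
        have h2 : (a.toNat : ℤ) = a := Int.toNat_of_nonneg (by omega)
        exact_mod_cast h2.symm
      rw [one_mul, h3]
      congr 2
      ring
  have h3 : ∑ a ∈ Ico (0 : ℤ) M, ‖K a.toNat‖ ^ 2 = ∑ t ∈ range M, ‖K t‖ ^ 2 := by
    apply sum_nbij' (fun a : ℤ => a.toNat) (fun t : ℕ => (t : ℤ))
    · intro a ha
      rw [mem_Ico] at ha
      rw [mem_range]
      omega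
    · intro t ht
      rw [mem_range] at ht
      rw [mem_Ico]
      omega
    · intro a ha
      rw [mem_Ico] at ha
      omega
    · intro t _
      simp
    · intro a ha
      rfl
  simp only [h2, h3] at h1
  rw [← h1]
  apply sum_le_sum_of_subset_of_nonneg
  · intro e he
    rw [mem_Icc] at he
    rw [mem_range]
    omega
  · intro _ _ _
    positivity

/-- the number of windows containing two points -/
lemma wcard (N H Z : ℕ) (hZ : N + 2 * H ≤ Z) (n j : ℤ) (hn : 0 < n ∧ n ≤ (N : ℤ)) (hnj : 0 < n - j ∧ n - j ≤ (N : ℤ)) :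
    (((range Z).filter (fun z : ℕ => ((z : ℤ) - 2 * H < n ∧ n ≤ z - H) ∧ ((z : ℤ) - 2 * H < n - j ∧ n - j ≤ z - H))).card : ℤ) =
      max 0 (H - |j|) := by
  rcases le_total 0 j with hj | hj
  · have h1 : (range Z).filter (fun z : ℕ => ((z : ℤ) - 2 * H < n ∧ n ≤ z - H) ∧ ((z : ℤ) - 2 * H < n - j ∧ n - j ≤ z - H)) =
        Ico ((n + H).toNat) ((n - j + 2 * H).toNat) := by
      ext z
      simp only [mem_filter, mem_range, mem_Ico]
      omega
    rw [h1, Nat.card_Ico, abs_of_nonneg hj]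
    omega
  · have h1 : (range Z).filter (fun z : ℕ => ((z : ℤ) - 2 * H < n ∧ n ≤ z - H) ∧ ((z : ℤ) - 2 * H < n - j ∧ n - j ≤ z - H)) =
        Ico ((n - j + H).toNat) ((n + 2 * H).toNat) := by
      ext z
      simp only [mem_filter, mem_range, mem_Ico]
      omega
    rw [h1, Nat.card_Ico, abs_of_nonpos hj]
    omega

/-- the correlations of two weights -/
noncomputable def cor (N : ℕ) (u v : ℤ → ℂ) (j : ℤ) : ℂ :=
  ∑ n ∈ Ioc (0 : ℤ) N, u n * (starRingEnd ℂ) (v (n - j))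

lemma gram_expand (N H Z : ℕ) (hH : 1 ≤ H) (hZ : N + 2 * H ≤ Z) (u v : ℤ → ℂ)
    (hu : ∀ n : ℤ, ¬ (0 < n ∧ n ≤ (N : ℤ)) → u n = 0) (hv : ∀ n : ℤ, ¬ (0 < n ∧ n ≤ (N : ℤ)) → v n = 0) (t : ℕ) :
    ∑ z ∈ range Z, UU H (4 * H) u z t * (starRingEnd ℂ) (UU H (4 * H) v z t) =
      ∑ j ∈ Ioo (-(H : ℤ)) H, (((H : ℝ) - |(j : ℝ)| : ℝ) : ℂ) * cor N u v j *
        ee ((t : ℝ) * (((1 * j : ℤ) : ℝ) / (4 * H : ℕ))) := by
  set M : ℕ := 4 * H with hM
  have hconj : ∀ x : ℝ, (starRingEnd ℂ) (ee x) = ee (-x) := by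
    intro x
    unfold ee
    rw [← Complex.exp_conj]
    congr 1
    simp only [map_mul, Complex.conj_ofReal, Complex.conj_I, map_ofNat]
    push_cast
    ring
  set f : ℤ → ℤ → ℂ := fun n j => u n * (starRingEnd ℂ) (v (n - j)) * ee ((t : ℝ) * (((1 * j : ℤ) : ℝ) / M)) with hf
  have h1 : ∀ z ∈ range Z, UU H M u z t * (starRingEnd ℂ) (UU H M v z t) =
      ∑ j ∈ Ioo (-(H : ℤ)) H, ∑ n ∈ Ioc (0 : ℤ) N,
        if ((z : ℤ) - 2 * H < n ∧ n ≤ z - H) ∧ ((z : ℤ) - 2 * H < n - j ∧ n - j ≤ z - H) then f n j else 0 := by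
    intro z _
    unfold UU
    rw [map_sum, sum_mul_sum]
    have h2 : ∀ n ∈ Ioc ((z : ℤ) - 2 * H) (z - H), ∑ m ∈ Ioc ((z : ℤ) - 2 * H) (z - H),
        u n * ee ((t : ℝ) * (((1 * n : ℤ) : ℝ) / M)) * (starRingEnd ℂ) (v m * ee ((t : ℝ) * (((1 * m : ℤ) : ℝ) / M))) =
        ∑ j ∈ Ioo (-(H : ℤ)) H, if (z : ℤ) - 2 * H < n - j ∧ n - j ≤ z - H then f n j else 0 := by
      intro n hn
      rw [mem_Ioc] at hn
      rw [← sum_filter]
      apply sum_nbij' (fun m => n - m) (fun j => n - j)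
      · intro m hm
        rw [mem_Ioc] at hm
        rw [mem_filter, mem_Ioo]
        omega
      · intro j hj
        rw [mem_filter, mem_Ioo] at hj
        rw [mem_Ioc]
        omega
      · intro m _
        ring
      · intro j _
        ring
      · intro m _
        rw [hf]
        simp only
        rw [map_mul, hconj, sub_sub_cancel]
        have h3 : ee ((t : ℝ) * (((1 * (n - m) : ℤ) : ℝ) / M)) = ee ((t : ℝ) * (((1 * n : ℤ) : ℝ) / M)) *
            ee (-((t : ℝ) * (((1 * m : ℤ) : ℝ) / M))) := by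
          rw [← ee_add]
          congr 1
          push_cast
          ring
        rw [h3]
        ring
    rw [sum_congr rfl h2, sum_comm]
    apply sum_congr rfl
    intro j _
    have h3 : ∑ n ∈ Ioc ((z : ℤ) - 2 * H) (z - H), (if (z : ℤ) - 2 * H < n - j ∧ n - j ≤ z - H then f n j else 0) =
        ∑ n ∈ (Ioc ((z : ℤ) - 2 * H) (z - H)).filter (fun n => 0 < n ∧ n ≤ (N : ℤ)),
          (if (z : ℤ) - 2 * H < n - j ∧ n - j ≤ z - H then f n j else 0) := by
      rw [sum_filter]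
      apply sum_congr rfl
      intro n _
      split_ifs with h4 h5 h5
      · rfl
      · rw [hf]; simp only; rw [hu n h5, zero_mul, zero_mul]
      · rfl
      · rfl
    rw [h3, ← sum_filter, ← sum_filter]
    apply sum_congr _ fun _ _ => rfl
    ext n
    simp only [mem_filter, mem_Ioc]
    tauto
  rw [sum_congr rfl h1, sum_comm]
  apply sum_congr rfl
  intro j hj
  rw [mem_Ioo] at hj
  rw [sum_comm]
  unfold cor
  rw [mul_sum, sum_mul]
  apply sum_congr rfl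
  intro n hn
  rw [mem_Ioc] at hn
  rw [← sum_filter, sum_const, nsmul_eq_mul]
  by_cases hnj : 0 < n - j ∧ n - j ≤ (N : ℤ)
  · have h2 := wcard N H Z hZ n j hn hnj
    have h3 : (((((range Z).filter (fun z : ℕ => ((z : ℤ) - 2 * H < n ∧ n ≤ z - H) ∧ ((z : ℤ) - 2 * H < n - j ∧ n - j ≤ z - H))).card : ℕ) : ℝ)) =
        (H : ℝ) - |(j : ℝ)| := by
      have h4 : |j| < H := by rw [abs_lt]; exact hj
      rw [max_eq_right (by omega)] at h2
      have h5 : ((((range Z).filter (fun z : ℕ => ((z : ℤ) - 2 * H < n ∧ n ≤ z - H) ∧ ((z : ℤ) - 2 * H < n - j ∧ n - j ≤ z - H))).card : ℤ) : ℝ) =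
          ((H - |j| : ℤ) : ℝ) := by rw [h2]
      push_cast at h5
      exact h5
    rw [← h3, hf]
    push_cast
    ring
  · rw [hf]
    simp only
    rw [hv _ hnj, map_zero, mul_zero, zero_mul, mul_zero, mul_zero, zero_mul]

end Pool.Agent.Y842.JC
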